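import Pool.Agent.DAP.Defs
import Pool.Agent.DAO.CD

/-!
# Project DAP: definitions for the proof
-/

set_option autoImplicit false

namespace Pool.Agent.DAP

open Finset Pool.Agent.OB Pool.Agent.DGO

/-- The function `F` has a two-party protocol with `D` bits, followed by a comparison of two real
numbers: bit `j` is sent by the owner of `P` if `own j = true`, otherwise by the owner of `Q`; if the
bits are the binary digits of `h` then `F p q = false` iff `w h q < u h p`. -/
def TP {P Q : Type*} (D : ℕ) (F : P → Q → Bool) : Prop :=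
  ∃ (own : ℕ → Bool) (β : ℕ → P → Q → Bool) (u : ℕ → P → ℝ) (w : ℕ → Q → ℝ),
    (∀ j < D, ∀ p q p' q', (∀ i < j, β i p q = β i p' q') → (own j = true → p = p') →
      (own j = false → q = q') → β j p q = β j p' q') ∧
    ∀ h p q, (∀ i < D, β i p q = h.testBit i) → (F p q = false ↔ w h q < u h p)

/-- The family `𝒞` is a chain. -/
def Nested {X : Type*} (𝒞 : Finset (Finset X)) : Prop := ∀ W ∈ 𝒞, ∀ W' ∈ 𝒞, W ⊆ W' ∨ W' ⊆ W

end Pool.Agent.DAP
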