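import Pool.Agent.DAP.St

/-!
# Project DAP, module CHM: a fixed chain is rare, for all members of a nested family together
-/

set_option autoImplicit false

namespace Pool.Agent.DAP

open Finset Pool.Agent.OB Pool.Agent.DGO

namespace MCHM

variable {I : Type} [Fintype I] [DecidableEq I] {t : ℕ}

/-- the last member of a chain -/
theorem last {d : ℕ} {W : Finset (Arr I t)} {p : Ptr I t} {Q : Finset I} {z : I → Bool}
    (h : Chain d W p Q z) (hQ : Q.Nonempty) :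
    ∃ T ⊆ Q, T.Nonempty ∧ (Chain d W p (Q \ T) z ∧ Big d (sub W p (Q \ T) z)) ∧
      Dang (sub W p (Q \ T) z) p T := by
  cases h with
  | nil => exact absurd hQ (by simp)
  | @step Q' _ T hc hb hT hd hD =>
    have h1 : (Q' ∪ T) \ T = Q' := by
      rw [Finset.union_sdiff_right]
      exact Finset.sdiff_eq_self_of_disjoint hd.symm
    refine ⟨T, Finset.subset_union_right, hT, ?_⟩
    rw [h1]
    exact ⟨⟨hc, hb⟩, hD⟩

omit [Fintype I] [DecidableEq I] in
open Classical in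
/-- the number of the pairs -/
theorem pairs (s : Finset (Ptr I t)) (A A' : Ptr I t → Prop) (B : Ptr I t → Ptr I t → Prop)
    (c : ℕ) (hA : ∀ p, A p → A' p)
    (h : ∀ p, A p → (s.filter fun p' => B p p').card * c ≤ s.card) :
    ((s ×ˢ s).filter fun v => A v.1 ∧ B v.1 v.2).card * c ≤ (s.filter fun p => A' p).card * s.card := by
  rw [Finset.card_filter, Finset.sum_product, Finset.card_filter, Finset.sum_mul, Finset.sum_mul]
  refine Finset.sum_le_sum fun p _ => ?_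
  by_cases hp : A p
  · have h1 : (∑ y ∈ s, if A p ∧ B p y then 1 else 0) = (s.filter fun p' => B p p').card := by
      rw [Finset.card_filter]
      refine Finset.sum_congr rfl fun y _ => ?_
      by_cases hy : B p y
      · rw [if_pos ⟨hp, hy⟩, if_pos hy]
      · rw [if_neg (fun h => hy h.2), if_neg hy]
    show (∑ y ∈ s, if A p ∧ B p y then 1 else 0) * c ≤ _
    rw [h1, if_pos (hA p hp), one_mul]
    exact h p hp
  · have h1 : (∑ y ∈ s, if A p ∧ B p y then 1 else 0) = 0 :=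
      Finset.sum_eq_zero fun y _ => if_neg fun h => hp h.1
    show (∑ y ∈ s, if A p ∧ B p y then 1 else 0) * c ≤ _
    rw [h1, zero_mul]
    exact Nat.zero_le _

open Classical in
/-- the parts of the members of a nested family form a nested family -/
theorem nest (𝒞 : Finset (Finset (Arr I t))) (hC : Nested 𝒞) (p : Ptr I t) (Q : Finset I)
    (z : I → Bool) : Nested (𝒞.image fun W => sub W p Q z) := by
  intro W hW W' hW'
  obtain ⟨U, hU, rfl⟩ := Finset.mem_image.1 hW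
  obtain ⟨U', hU', rfl⟩ := Finset.mem_image.1 hW'
  rcases hC U hU U' hU' with h | h
  · exact Or.inl (Finset.filter_subset_filter _ h)
  · exact Or.inr (Finset.filter_subset_filter _ h)

/-- some member of the family has a chain `Q` and its part is big -/
def PA (d : ℕ) (𝒞 : Finset (Finset (Arr I t))) (Q : Finset I) (z : I → Bool) (p : Ptr I t) : Prop :=
  ∃ W ∈ 𝒞, Chain d W p Q z ∧ Big d (sub W p Q z)

/-- the part of some member of the family is big, and `T` is dangerous for it -/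
def PB (d : ℕ) (𝒞 : Finset (Finset (Arr I t))) (Q T : Finset I) (z : I → Bool)
    (p p' : Ptr I t) : Prop :=
  ∃ W ∈ 𝒞, Big d (sub W p Q z) ∧ Dang (sub W p Q z) p' T

/-- some member of the family has a chain `Q` -/
def PC (d : ℕ) (𝒞 : Finset (Finset (Arr I t))) (Q : Finset I) (z : I → Bool) (p : Ptr I t) : Prop :=
  ∃ W ∈ 𝒞, Chain d W p Q z

open Classical in
/-- one member of the cover -/
theorem one (hCHD : S_CHD) (hSWP : S_SWP) (d : ℕ) (Λ : I → Finset (Fin t)) (p₀ : Ptr I t)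
    (𝒞 : Finset (Finset (Arr I t))) (hC : Nested 𝒞) (c : ℕ)
    (h : ∀ (𝒞 : Finset (Finset (Arr I t))) (T : Finset I), Nested 𝒞 → T.Nonempty →
      ((cls Λ p₀).filter fun p => ∃ W ∈ 𝒞, Big d W ∧ Dang W p T).card * c ^ T.card ≤
        (cls Λ p₀).card)
    (Q T : Finset I) (z : I → Bool) (hT : T.Nonempty) :
    ((cls Λ p₀).filter fun p => PA d 𝒞 (Q \ T) z p ∧ PB d 𝒞 (Q \ T) T z p p).card * c ^ T.card ≤
      ((cls Λ p₀).filter fun p => PC d 𝒞 (Q \ T) z p).card := by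
  have hmem : p₀ ∈ cls Λ p₀ := by
    unfold cls
    rw [Finset.mem_filter]
    exact ⟨Finset.mem_univ _, fun i l _ => rfl⟩
  have hpos : 0 < (cls Λ p₀).card := Finset.card_pos.2 ⟨p₀, hmem⟩
  have hQT : ∀ i ∈ Q \ T, i ∉ T := fun i hi => (Finset.mem_sdiff.1 hi).2
  have hsub : ∀ (W : Finset (Arr I t)) (p p' : Ptr I t), (∀ i ∉ T, p i = p' i) →
      sub W p (Q \ T) z = sub W p' (Q \ T) z := fun W p p' hp =>
    (hCHD I t d W p p').1 (Q \ T) z z (fun i hi => ⟨hp i (hQT i hi), rfl⟩)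
  have hch : ∀ (W : Finset (Arr I t)) (p p' : Ptr I t), (∀ i ∉ T, p i = p' i) →
      Chain d W p (Q \ T) z → Chain d W p' (Q \ T) z := fun W p p' hp =>
    (hCHD I t d W p p').2.2 (Q \ T) z z (fun i hi => ⟨hp i (hQT i hi), rfl⟩)
  have hA : ∀ (p p' : Ptr I t), (∀ i ∉ T, p i = p' i) →
      PA d 𝒞 (Q \ T) z p → PA d 𝒞 (Q \ T) z p' := by
    rintro p p' hp ⟨W, hW, h1, h2⟩
    exact ⟨W, hW, hch W p p' hp h1, hsub W p p' hp ▸ h2⟩
  have hB : ∀ (p p' u u' : Ptr I t), (∀ i ∉ T, p i = u i) → (∀ i ∈ T, p' i = u' i) →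
      PB d 𝒞 (Q \ T) T z p p' → PB d 𝒞 (Q \ T) T z u u' := by
    rintro p p' u u' hp hp' ⟨W, hW, h1, h2⟩
    refine ⟨W, hW, hsub W p u hp ▸ h1, ?_⟩
    rw [← hsub W p u hp]
    exact ((hCHD I t d (sub W p (Q \ T) z) p' u').2.1 T hp').1 h2
  have h1 := hSWP I t Λ p₀ T
    (PA d 𝒞 (Q \ T) z) (PB d 𝒞 (Q \ T) T z)
    (fun p p' hp => ⟨hA p p' hp, hA p' p fun i hi => (hp i hi).symm⟩)
    (fun p p' u u' hp hp' => ⟨hB p p' u u' hp hp',
      hB u u' p p' (fun i hi => (hp i hi).symm) fun i hi => (hp' i hi).symm⟩)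
  have h2 := pairs (cls Λ p₀)
    (PA d 𝒞 (Q \ T) z) (PC d 𝒞 (Q \ T) z) (PB d 𝒞 (Q \ T) T z)
    (c ^ T.card) (fun p hp => by
      obtain ⟨W, hW, h3⟩ := hp
      exact ⟨W, hW, h3.1⟩)
    (fun p hp => by
      have h3 := h (𝒞.image fun W => sub W p (Q \ T) z) T (nest 𝒞 hC p (Q \ T) z) hT
      refine le_trans (Nat.mul_le_mul_right _ (Finset.card_le_card ?_)) h3
      intro p' hp'
      rw [Finset.mem_filter] at hp' ⊢
      obtain ⟨hm, W, hW, h4, h5⟩ := hp'
      exact ⟨hm, sub W p (Q \ T) z, Finset.mem_image_of_mem _ hW, h4, h5⟩)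
  rw [← h1, mul_right_comm] at h2
  refine le_of_eq_of_le ?_ (Nat.le_of_mul_le_mul_right h2 hpos)
  refine congrArg (fun s : Finset (Ptr I t) => s.card * c ^ T.card) ?_
  ext p
  simp only [Finset.mem_filter]

omit [Fintype I] in
/-- the sum over the nonempty subsets -/
theorem sum_sub (n : ℕ) (Q : Finset I) (hn : 0 < n) (hk : Q.card ≤ n) :
    ∑ T ∈ Q.powerset.erase ∅, (1 / (2 * (n : ℝ))) ^ T.card ≤ 1 := by
  have hn' : (0 : ℝ) < n := by exact_mod_cast hn
  have h1 := Finset.sum_pow_mul_eq_add_pow (1 / (2 * (n : ℝ))) 1 Q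
  simp only [one_pow, mul_one] at h1
  have h2 : (∅ : Finset I) ∈ Q.powerset := Finset.empty_mem_powerset Q
  have h3 := Finset.add_sum_erase Q.powerset (fun T => (1 / (2 * (n : ℝ))) ^ T.card) h2
  simp only [Finset.card_empty, pow_zero] at h3
  have h4 : (1 / (2 * (n : ℝ)) + 1) ^ Q.card ≤ 2 := by
    have a1 : 1 / (2 * (n : ℝ)) + 1 ≤ Real.exp (1 / (2 * (n : ℝ))) := Real.add_one_le_exp _
    have a2 : (1 / (2 * (n : ℝ)) + 1) ^ Q.card ≤ Real.exp (1 / (2 * (n : ℝ))) ^ Q.card :=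
      pow_le_pow_left₀ (by positivity) a1 _
    rw [← Real.exp_nat_mul] at a2
    have a3 : (Q.card : ℝ) * (1 / (2 * (n : ℝ))) ≤ 1 / 2 := by
      have : (Q.card : ℝ) ≤ n := by exact_mod_cast hk
      calc (Q.card : ℝ) * (1 / (2 * (n : ℝ))) ≤ n * (1 / (2 * (n : ℝ))) :=
            mul_le_mul_of_nonneg_right this (by positivity)
        _ = 1 / 2 := by field_simp
    have a4 : Real.exp ((Q.card : ℝ) * (1 / (2 * (n : ℝ)))) ≤ Real.exp (1 / 2) :=
      Real.exp_le_exp.2 a3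
    have a5 : Real.exp (1 / 2) ≤ 2 := by
      have b1 : Real.exp (1 / 2) * Real.exp (1 / 2) = Real.exp 1 := by
        rw [← Real.exp_add]
        norm_num
      have b2 := Real.exp_one_lt_d9
      have b3 := Real.exp_pos (1 / 2)
      nlinarith
    linarith
  linarith

open Classical in
theorem main (hCHD : S_CHD) (hSWP : S_SWP) (d : ℕ) (Λ : I → Finset (Fin t)) (p₀ : Ptr I t)
    (𝒞 : Finset (Finset (Arr I t))) (hC : Nested 𝒞)
    (h : ∀ (𝒞 : Finset (Finset (Arr I t))) (T : Finset I), Nested 𝒞 → T.Nonempty →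
      ((cls Λ p₀).filter fun p => ∃ W ∈ 𝒞, Big d W ∧ Dang W p T).card *
        (4 * Fintype.card I ^ 3) ^ T.card ≤ (cls Λ p₀).card) (z : I → Bool) (k : ℕ) :
    ∀ Q : Finset I, Q.card = k →
    ((cls Λ p₀).filter fun p => PC d 𝒞 Q z p).card * (2 * Fintype.card I ^ 2) ^ Q.card ≤
      (cls Λ p₀).card := by
  induction k using Nat.strong_induction_on with
  | _ k ih =>
  intro Q hQk
  rcases Q.eq_empty_or_nonempty with rfl | hQ
  · rw [Finset.card_empty, pow_zero, mul_one]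
    exact Finset.card_filter_le _ _
  obtain ⟨n, hn⟩ : ∃ n, n = Fintype.card I := ⟨_, rfl⟩
  have hkn : Q.card ≤ n := hn ▸ Finset.card_le_univ Q
  have hn0 : 0 < n := lt_of_lt_of_le (Finset.card_pos.2 hQ) hkn
  have hnR : (0 : ℝ) < n := by exact_mod_cast hn0
  rw [← hn] at h ⊢
  obtain ⟨D, hD⟩ : ∃ D : Finset I → Finset (Ptr I t), ∀ T, D T = (cls Λ p₀).filter fun p =>
      PA d 𝒞 (Q \ T) z p ∧ PB d 𝒞 (Q \ T) T z p p :=
    ⟨_, fun T => rfl⟩
  have hcov : ((cls Λ p₀).filter fun p => PC d 𝒞 Q z p) ⊆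
      (Q.powerset.erase ∅).biUnion D := by
    intro p hp
    rw [Finset.mem_filter] at hp
    obtain ⟨hm, W, hW, hch⟩ := hp
    obtain ⟨T, hTQ, hT, h1⟩ := last hch hQ
    rw [Finset.mem_biUnion]
    refine ⟨T, Finset.mem_erase.2 ⟨hT.ne_empty, Finset.mem_powerset.2 hTQ⟩, ?_⟩
    rw [hD, Finset.mem_filter]
    exact ⟨hm, ⟨W, hW, h1.1⟩, W, hW, h1.1.2, h1.2⟩
  have h1 : (((cls Λ p₀).filter fun p => PC d 𝒞 Q z p).card : ℝ) ≤
      ∑ T ∈ Q.powerset.erase ∅, ((D T).card : ℝ) := by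
    have := (Finset.card_le_card hcov).trans Finset.card_biUnion_le
    exact_mod_cast this
  have h2 : ∀ T ∈ Q.powerset.erase ∅, ((D T).card : ℝ) * (2 * (n : ℝ) ^ 2) ^ Q.card ≤
      ((cls Λ p₀).card : ℝ) * (1 / (2 * (n : ℝ))) ^ T.card := by
    intro T hT
    rw [Finset.mem_erase, Finset.mem_powerset] at hT
    have hTn : T.Nonempty := Finset.nonempty_iff_ne_empty.2 hT.1
    have e1 := one hCHD hSWP d Λ p₀ 𝒞 hC (4 * n ^ 3) h Q T z hTn
    rw [← hD] at e1
    have hc : (Q \ T).card + T.card = Q.card := Finset.card_sdiff_add_card_eq_card hT.2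
    have hTpos : 0 < T.card := Finset.card_pos.2 hTn
    have e2 := ih (Q \ T).card (by omega) (Q \ T) rfl
    rw [← hn] at e2
    have e3 : (D T).card * (4 * n ^ 3) ^ T.card * (2 * n ^ 2) ^ (Q \ T).card ≤
        (cls Λ p₀).card := (Nat.mul_le_mul_right _ e1).trans e2
    have e4 : ((D T).card : ℝ) * (4 * (n : ℝ) ^ 3) ^ T.card * (2 * (n : ℝ) ^ 2) ^ (Q \ T).card ≤
        ((cls Λ p₀).card : ℝ) := by exact_mod_cast e3
    have e5 : (1 / (2 * (n : ℝ))) ^ T.card * (2 * (n : ℝ)) ^ T.card = 1 := by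
      rw [← mul_pow]
      have : 1 / (2 * (n : ℝ)) * (2 * (n : ℝ)) = 1 := by field_simp
      rw [this, one_pow]
    have e6 : (4 * (n : ℝ) ^ 3) ^ T.card = (2 * (n : ℝ) ^ 2) ^ T.card * (2 * (n : ℝ)) ^ T.card := by
      rw [← mul_pow]
      congr 1
      ring
    have e7 : (0 : ℝ) < (1 / (2 * (n : ℝ))) ^ T.card := by positivity
    have e8 := mul_le_mul_of_nonneg_right e4 e7.le
    rw [← hc, pow_add]
    calc ((D T).card : ℝ) * ((2 * (n : ℝ) ^ 2) ^ (Q \ T).card * (2 * (n : ℝ) ^ 2) ^ T.card)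
        = ((D T).card : ℝ) * ((2 * (n : ℝ) ^ 2) ^ (Q \ T).card * (2 * (n : ℝ) ^ 2) ^ T.card) *
          ((1 / (2 * (n : ℝ))) ^ T.card * (2 * (n : ℝ)) ^ T.card) := by rw [e5, mul_one]
      _ = ((D T).card : ℝ) * (4 * (n : ℝ) ^ 3) ^ T.card * (2 * (n : ℝ) ^ 2) ^ (Q \ T).card *
          (1 / (2 * (n : ℝ))) ^ T.card := by rw [e6]; ring
      _ ≤ _ := e8
  have h3 : (((cls Λ p₀).filter fun p => PC d 𝒞 Q z p).card : ℝ) *
      (2 * (n : ℝ) ^ 2) ^ Q.card ≤ ((cls Λ p₀).card : ℝ) := by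
    have a1 := mul_le_mul_of_nonneg_right h1
      (show (0 : ℝ) ≤ (2 * (n : ℝ) ^ 2) ^ Q.card by positivity)
    rw [Finset.sum_mul] at a1
    have a2 := a1.trans (Finset.sum_le_sum h2)
    rw [← Finset.mul_sum] at a2
    have a3 := mul_le_mul_of_nonneg_left (sum_sub n Q hn0 hkn)
      (show (0 : ℝ) ≤ ((cls Λ p₀).card : ℝ) by positivity)
    linarith
  exact_mod_cast h3

end MCHM

open Classical in
theorem t_CHM (hCHD : S_CHD) (hSWP : S_SWP) : S_CHM := by
  intro I _ _ t d Λ p₀ h 𝒞 hC Q z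
  have h1 := MCHM.main hCHD hSWP d Λ p₀ 𝒞 hC h z _ Q rfl
  refine le_trans (Nat.mul_le_mul_right _ (Finset.card_le_card fun p hp => ?_)) h1
  simp only [Finset.mem_filter] at hp ⊢
  exact hp

end Pool.Agent.DAP
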