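import Pool.Agent.DAP.St

/-!
# Project DAP: the lower bound for sequences of nested families
-/

set_option autoImplicit false

namespace Pool.Agent.DAP

open Finset Pool.Agent.OB Pool.Agent.DGO

theorem cls_univ {I : Type} [Fintype I] [DecidableEq I] {t : ℕ} (p₀ : Ptr I t) :
    cls (fun _ => (univ : Finset (Fin t))) p₀ = univ := by
  ext p
  simp [cls]

theorem t_CORM (hSMW : S_SMW) (hSMM : S_SMM) (hCHM : S_CHM) (hGOM : S_GOM) (hPSM : S_PSM)
    (hWLM : S_WLM) (hSTA : S_STA) : S_CORM := by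
  classical
  intro I _ _ a' d r w L κ lg G H F hn h14 hnum hd hL hκ hstr hrw hC3 hnest hinf hlast
  by_contra hcon
  rw [not_le] at hcon
  obtain ⟨X, hX⟩ : ∃ X, X = 32 * Fintype.card I ^ 4 * (2 * d + 1) := ⟨_, rfl⟩
  have hn1 : 1 ≤ Fintype.card I := le_trans (by norm_num) hn
  have hX1 : 1 ≤ X := by
    rw [hX]
    have : 1 ≤ Fintype.card I ^ 4 := Nat.one_le_pow _ _ hn1
    calc 1 ≤ 32 * 1 * (2 * 0 + 1) := by norm_num
      _ ≤ 32 * Fintype.card I ^ 4 * (2 * d + 1) :=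
        Nat.mul_le_mul (Nat.mul_le_mul_left _ this) (by omega)
  have h512 : 512 * Fintype.card I ^ 2 * X ≤ 2 ^ a' := by
    refine le_trans (le_of_eq ?_) h14
    rw [hX]
    ring
  have h16 : 16 * Fintype.card I * (64 * Fintype.card I ^ 2 * X) ^ Fintype.card I * 4 ^ d ≤
      2 ^ ((2 ^ a') ^ 2 / 2) := by
    refine le_trans (le_of_eq ?_) hnum
    have : 64 * Fintype.card I ^ 2 * X = 2 ^ 11 * Fintype.card I ^ 6 * (2 * d + 1) := by
      rw [hX]
      ring
    rw [this]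
  have hcard : ∀ i : I, ((fun _ => (univ : Finset (Fin (4 * a')))) i).card = 4 * a' := fun i => by
    simp
  have hgood : ∀ 𝒞 : Finset (Finset (Arr I (4 * a'))), Nested 𝒞 →
      ((univ : Finset (Ptr I (4 * a'))).filter fun p => ∃ W ∈ 𝒞, ¬ Good d r W p).card *
        Fintype.card I ^ r ≤ Fintype.card (Ptr I (4 * a')) := by
    intro 𝒞 h𝒞
    have key := hGOM I (4 * a') d r (fun _ => univ) (fun _ _ => false) 𝒞 hn
      (hCHM I (4 * a') d (fun _ => univ) (fun _ _ => false) (fun 𝒞' T h𝒞' hT =>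
        hSMM I (4 * a') d X (fun _ => univ) (fun _ _ => false) 𝒞' T (le_of_eq hX.symm)
          (fun W hW => hSMW I (4 * a') a' d X (fun _ => univ) (fun _ _ => false) W T hcard hX1
            h512 h16 hW hT) h𝒞' hT) 𝒞 h𝒞)
    rw [cls_univ, Finset.card_univ] at key
    exact key
  obtain ⟨p, hp⟩ := hPSM I (4 * a') d r L F hgood hnest hcon
  obtain ⟨v, hv, hF⟩ := hlast
  have h3r : 3 * r ≤ w := by
    have : 2 * r ≤ κ * r := Nat.mul_le_mul_right _ hκ
    rw [Nat.add_mul, Nat.one_mul] at hrw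
    omega
  obtain ⟨Q, z, hst⟩ := hSTA I (4 * a') d r w L lg G H F p v hstr h3r hv hL hd (hp v hv) (hF p)
  refine hWLM I (4 * a') d r w L κ G H F p hstr hrw hC3 hp (fun v hv => ?_) v hv Q z hst
  obtain ⟨E, S, h1, h2, h3, h4, h5⟩ := hinf v hv
  exact ⟨E, S, h1, h2, h3, h4, h5 p⟩

end Pool.Agent.DAP
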