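import Pool.Agent.DAP.St

/-!
# Project DAP: few pointer assignments are not good (module GOM)
-/

set_option autoImplicit false

namespace Pool.Agent.DAP

open Finset Pool.Agent.OB Pool.Agent.DGO

namespace MGOM

/-- the binomial sum -/
lemma sum_le (I : Type) [Fintype I] [DecidableEq I] (h3 : 3 ≤ Fintype.card I) :
    ∑ Q : Finset I, ((Fintype.card I : ℝ)⁻¹) ^ Q.card ≤ Fintype.card I := by
  have hn : (3 : ℝ) ≤ Fintype.card I := by exact_mod_cast h3
  have hn0 : (0 : ℝ) < Fintype.card I := by linarith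
  have h1 := Finset.sum_pow_mul_eq_add_pow ((Fintype.card I : ℝ)⁻¹) 1 (univ : Finset I)
  simp only [one_pow, mul_one, powerset_univ, card_univ] at h1
  rw [h1]
  have h2 : ((Fintype.card I : ℝ)⁻¹ + 1) ^ Fintype.card I ≤ Real.exp 1 := by
    have h4 := Real.add_one_le_exp ((Fintype.card I : ℝ)⁻¹)
    calc ((Fintype.card I : ℝ)⁻¹ + 1) ^ Fintype.card I ≤
        (Real.exp ((Fintype.card I : ℝ)⁻¹)) ^ Fintype.card I :=
          pow_le_pow_left₀ (by positivity) h4 _
      _ = Real.exp 1 := by rw [← Real.exp_nat_mul, mul_inv_cancel₀ hn0.ne']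
  have := Real.exp_one_lt_d9
  linarith

end MGOM

open Classical in
theorem t_GOM (hCHD : S_CHD) : S_GOM := by
  intro I _ _ t d r Λ p₀ 𝒞 h3 h
  have hn3 : (3 : ℝ) ≤ (Fintype.card I : ℝ) := by exact_mod_cast h3
  have hn0 : (0 : ℝ) < (Fintype.card I : ℝ) := by linarith
  have hinv0 : (0 : ℝ) ≤ (Fintype.card I : ℝ)⁻¹ := by positivity
  have hinv1 : (Fintype.card I : ℝ)⁻¹ ≤ 1 := inv_le_one_of_one_le₀ (by linarith)
  have hsub : (cls Λ p₀).filter (fun p => ∃ W ∈ 𝒞, ¬ Good d r W p) ⊆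
      ((univ : Finset (Finset I)).filter fun Q => r + 1 ≤ Q.card).biUnion fun Q =>
        Q.powerset.biUnion fun Z =>
          (cls Λ p₀).filter fun p => ∃ W ∈ 𝒞, Chain d W p Q (fun i => decide (i ∈ Z)) := by
    intro p hp
    obtain ⟨hp1, hp2⟩ := mem_filter.1 hp
    obtain ⟨W, hW, hp2⟩ := hp2
    unfold Good at hp2
    push Not at hp2
    obtain ⟨Q, z, hc, hr⟩ := hp2
    refine mem_biUnion.2 ⟨Q, mem_filter.2 ⟨mem_univ _, hr⟩, ?_⟩
    refine mem_biUnion.2 ⟨Q.filter fun i => z i = true, mem_powerset.2 (filter_subset _ _), ?_⟩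
    refine mem_filter.2 ⟨hp1, W, hW, ?_⟩
    refine (hCHD I t d W p p).2.2 Q z _ (fun i hi => ⟨rfl, ?_⟩) hc
    simp [hi]
  have h1 : (((cls Λ p₀).filter fun p => ∃ W ∈ 𝒞, ¬ Good d r W p).card : ℝ) ≤
      ∑ Q ∈ (univ : Finset (Finset I)).filter fun Q => r + 1 ≤ Q.card, ∑ Z ∈ Q.powerset,
        (((cls Λ p₀).filter fun p => ∃ W ∈ 𝒞, Chain d W p Q (fun i => decide (i ∈ Z))).card : ℝ) := by
    have h2 := (card_le_card hsub).trans (card_biUnion_le.trans
      (Finset.sum_le_sum fun Q _ => card_biUnion_le))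
    exact_mod_cast h2
  have h4 : ∀ Q ∈ (univ : Finset (Finset I)).filter fun Q => r + 1 ≤ Q.card,
      ∑ Z ∈ Q.powerset,
        (((cls Λ p₀).filter fun p => ∃ W ∈ 𝒞, Chain d W p Q (fun i => decide (i ∈ Z))).card : ℝ) ≤
      (cls Λ p₀).card * ((Fintype.card I : ℝ)⁻¹) ^ (r + 1) *
        ((Fintype.card I : ℝ)⁻¹) ^ Q.card := by
    intro Q hQ
    have hk := (mem_filter.1 hQ).2
    have hpos : (0 : ℝ) < (2 * (Fintype.card I : ℝ) ^ 2) ^ Q.card := by positivity
    calc ∑ Z ∈ Q.powerset,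
        (((cls Λ p₀).filter fun p => ∃ W ∈ 𝒞, Chain d W p Q (fun i => decide (i ∈ Z))).card : ℝ) ≤
        ∑ Z ∈ Q.powerset, ((cls Λ p₀).card : ℝ) / (2 * (Fintype.card I : ℝ) ^ 2) ^ Q.card := by
          refine Finset.sum_le_sum fun Z _ => ?_
          rw [le_div_iff₀ hpos]
          exact_mod_cast h Q (fun i => decide (i ∈ Z))
      _ = ((cls Λ p₀).card : ℝ) * ((Fintype.card I : ℝ)⁻¹) ^ Q.card *
          ((Fintype.card I : ℝ)⁻¹) ^ Q.card := by
          rw [Finset.sum_const, card_powerset, nsmul_eq_mul, inv_pow, mul_pow, ← pow_mul]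
          push_cast
          have h5 : (Fintype.card I : ℝ) ^ (2 * Q.card) =
              (Fintype.card I : ℝ) ^ Q.card * (Fintype.card I : ℝ) ^ Q.card := by ring
          rw [h5]
          have h6 : (Fintype.card I : ℝ) ^ Q.card ≠ 0 := by positivity
          field_simp
      _ ≤ ((cls Λ p₀).card : ℝ) * ((Fintype.card I : ℝ)⁻¹) ^ (r + 1) *
          ((Fintype.card I : ℝ)⁻¹) ^ Q.card := by
          refine mul_le_mul_of_nonneg_right ?_ (by positivity)
          refine mul_le_mul_of_nonneg_left ?_ (by positivity)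
          exact pow_le_pow_of_le_one hinv0 hinv1 hk
  have h7 : (((cls Λ p₀).filter fun p => ∃ W ∈ 𝒞, ¬ Good d r W p).card : ℝ) ≤
      (cls Λ p₀).card * ((Fintype.card I : ℝ)⁻¹) ^ (r + 1) * (Fintype.card I : ℝ) := by
    refine h1.trans ((Finset.sum_le_sum h4).trans ?_)
    rw [← Finset.mul_sum]
    refine mul_le_mul_of_nonneg_left ?_ (by positivity)
    refine le_trans ?_ (MGOM.sum_le I h3)
    exact Finset.sum_le_sum_of_subset_of_nonneg (filter_subset _ _) fun _ _ _ => by positivity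
  have h8 : (((cls Λ p₀).filter fun p => ∃ W ∈ 𝒞, ¬ Good d r W p).card : ℝ) *
      (Fintype.card I : ℝ) ^ r ≤ (cls Λ p₀).card := by
    calc (((cls Λ p₀).filter fun p => ∃ W ∈ 𝒞, ¬ Good d r W p).card : ℝ) * (Fintype.card I : ℝ) ^ r ≤
        ((cls Λ p₀).card * ((Fintype.card I : ℝ)⁻¹) ^ (r + 1) * (Fintype.card I : ℝ)) *
          (Fintype.card I : ℝ) ^ r := mul_le_mul_of_nonneg_right h7 (by positivity)
      _ = (cls Λ p₀).card := by
          rw [pow_succ, inv_pow]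
          have h6 : (Fintype.card I : ℝ) ^ r ≠ 0 := by positivity
          field_simp
  exact_mod_cast h8

end Pool.Agent.DAP
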