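import Pool.Agent.DAP.St

/-!
# Project DAP: the numbers, part 2 (helper68)
-/

set_option autoImplicit false

namespace Pool.Agent.DAP

namespace MNUF

theorem key (q : ℕ) (hq : 3 ≤ q) : (4 * (264 + 256 * q) ^ 2 + 2) * 128 ≤ 8192 ^ q := by
  induction q, hq using Nat.le_induction with
  | base => norm_num
  | succ q hq ih =>
    rw [pow_succ 8192 q]
    nlinarith [ih, Nat.zero_le q]

/-- The polynomial inequality. -/
theorem poly {k A : ℕ} (hk : 4 ≤ k) :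
    (k + ((k + 3) * (A * k) + 1) + 1) * (2 * (k + 3)) ≤ 8 * k ^ 3 * (A + 1) := by
  have h1 : k + 3 ≤ 2 * k := by omega
  have h2 : k + ((k + 3) * (A * k) + 1) + 1 ≤ k + 2 * k * (A * k) + 2 := by
    have := Nat.mul_le_mul_right (A * k) h1
    omega
  have h3 : 2 * (k + 3) ≤ 4 * k := by omega
  have h4 : 4 * k ^ 2 + 8 * k ≤ 8 * k ^ 3 := by
    have h5 : 4 * k ≤ k ^ 2 := by nlinarith
    have h6 : 4 * k ^ 2 ≤ k ^ 3 := by nlinarith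
    omega
  calc (k + ((k + 3) * (A * k) + 1) + 1) * (2 * (k + 3))
      ≤ (k + 2 * k * (A * k) + 2) * (4 * k) := Nat.mul_le_mul h2 h3
    _ = 8 * k ^ 3 * A + (4 * k ^ 2 + 8 * k) := by ring
    _ ≤ 8 * k ^ 3 * A + 8 * k ^ 3 := Nat.add_le_add_left h4 _
    _ = 8 * k ^ 3 * (A + 1) := by ring

/-- The exponent. -/
theorem expo {m F q a : ℕ} (hF : 47 ≤ F) (hm : 2 ^ F ≤ m) (hq : q = (F + 1) / 16)
    (ha : a ≤ 40 + 16 * F) :
    (2 ^ (q + 1) + ((2 ^ (q + 1) + 3) * ((4 * a ^ 2 + 1) * 2 ^ (q + 1)) + 1) + 1) *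
      (2 * (2 ^ (q + 1) + 3)) ≤ m := by
  have hq3 : 3 ≤ q := by omega
  have h1 : 16 * q ≤ F + 1 := by omega
  have h2 : a ≤ 264 + 256 * q := by omega
  have h3 := key q hq3
  have h4 : a ^ 2 ≤ (264 + 256 * q) ^ 2 := Nat.pow_le_pow_left h2 2
  have h5 : 4 ≤ 2 ^ (q + 1) := by
    calc 4 = 2 ^ 2 := by norm_num
      _ ≤ 2 ^ (q + 1) := Nat.pow_le_pow_right (by norm_num) (by omega)
  have h6 : (2 ^ (q + 1)) ^ 3 = 8 * 8 ^ q := by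
    rw [show (8 : ℕ) ^ q = 2 ^ (3 * q) by rw [pow_mul]; norm_num, ← pow_mul,
      show (q + 1) * 3 = 3 * q + 3 by ring, pow_add]
    ring
  have h7 : 8 ^ q * 8192 ^ q = 2 ^ (16 * q) := by
    rw [← mul_pow, pow_mul]
    norm_num
  have h8 : 2 ^ (16 * q) ≤ 2 ^ (F + 1) := Nat.pow_le_pow_right (by norm_num) h1
  have h9 : 2 ^ (F + 1) = 2 * 2 ^ F := pow_succ' 2 F
  have h10 : 8 ^ q * ((4 * a ^ 2 + 2) * 128) ≤ 8 ^ q * 8192 ^ q := by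
    refine Nat.mul_le_mul_left _ (le_trans ?_ h3)
    omega
  have h11 := poly (k := 2 ^ (q + 1)) (A := 4 * a ^ 2 + 1) h5
  refine h11.trans ?_
  rw [h6]
  have h12 : 8 * (8 * 8 ^ q) * (4 * a ^ 2 + 1 + 1) * 2 = 8 ^ q * ((4 * a ^ 2 + 2) * 128) := by ring
  omega

/-- `N ^ (1 / 8000)` is at most `2 ^ (q + 1)`. -/
theorem root {m F q N : ℕ} (hm1 : m < 2 ^ (F + 1)) (hq : q = (F + 1) / 16)
    (hN : N ≤ m ^ 500) : (N : ℝ) ^ (1 / 8000 : ℝ) ≤ ((2 ^ (q + 1) : ℕ) : ℝ) := by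
  have h1 : N ≤ (2 ^ (q + 1)) ^ 8000 := by
    calc N ≤ m ^ 500 := hN
      _ ≤ (2 ^ (F + 1)) ^ 500 := Nat.pow_le_pow_left hm1.le 500
      _ = 2 ^ ((F + 1) * 500) := (pow_mul 2 (F + 1) 500).symm
      _ ≤ 2 ^ ((q + 1) * 8000) :=
          Nat.pow_le_pow_right (by norm_num) (by subst hq; clear hN; omega)
      _ = (2 ^ (q + 1)) ^ 8000 := pow_mul 2 (q + 1) 8000
  have h3 : (N : ℝ) ≤ ((2 ^ (q + 1) : ℕ) : ℝ) ^ (8000 : ℕ) := by exact_mod_cast h1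
  calc (N : ℝ) ^ (1 / 8000 : ℝ)
      ≤ (((2 ^ (q + 1) : ℕ) : ℝ) ^ (8000 : ℕ)) ^ (1 / 8000 : ℝ) :=
        Real.rpow_le_rpow (Nat.cast_nonneg _) h3 (by norm_num)
    _ = ((2 ^ (q + 1) : ℕ) : ℝ) := by
        rw [← Real.rpow_natCast, ← Real.rpow_mul (Nat.cast_nonneg _)]
        norm_num

/-- The bound for the size in natural numbers. -/
theorem size {m F q N w L : ℕ} (hm1 : m < 2 ^ (F + 1)) (hq : q = (F + 1) / 16)
    (hN : N ≤ m ^ 500)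
    (hw : ((max w L : ℕ) : ℝ) < (2 : ℝ) ^ ((N : ℝ) ^ (1 / 8000 : ℝ))) :
    max w L < 2 ^ (2 ^ (q + 1)) := by
  have h2 := root hm1 hq hN
  have h4 : ((max w L : ℕ) : ℝ) < ((2 ^ (2 ^ (q + 1)) : ℕ) : ℝ) := by
    calc ((max w L : ℕ) : ℝ) < (2 : ℝ) ^ ((N : ℝ) ^ (1 / 8000 : ℝ)) := hw
      _ ≤ (2 : ℝ) ^ (((2 ^ (q + 1) : ℕ) : ℝ)) :=
          Real.rpow_le_rpow_of_exponent_le (by norm_num) h2
      _ = ((2 ^ (2 ^ (q + 1)) : ℕ) : ℝ) := by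
          rw [Real.rpow_natCast]
          push_cast
          rfl
  exact_mod_cast h4

theorem main {m F q n a N w L κ : ℕ} (hF : 47 ≤ F) (hm : 2 ^ F ≤ m) (hm1 : m < 2 ^ (F + 1))
    (hq : q = (F + 1) / 16) (hn : m ^ 2 ≤ n) (ha : a ≤ 40 + 16 * F) (hN : N ≤ m ^ 500)
    (hκ : (κ : ℝ) ≤ (N : ℝ) ^ (1 / 8000 : ℝ) + 2)
    (hw : ((max w L : ℕ) : ℝ) < (2 : ℝ) ^ ((N : ℝ) ^ (1 / 8000 : ℝ))) :
    (κ + 1) * (m / (2 * (κ + 1))) + 3 * κ ≤ m ∧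
    (L + 1) * 2 ^ ((κ + 1) * ((4 * a ^ 2 + 1) * Nat.clog 2 w) + 1) ≤ 2 ^ m ∧
    (L + 1) * 2 ^ ((κ + 1) * ((4 * a ^ 2 + 1) * Nat.clog 2 w) + 1) < n ^ (m / (2 * (κ + 1))) := by
  have h1 := size hm1 hq hN hw
  have h2 := expo hF hm hq ha
  have hwk : w < 2 ^ (2 ^ (q + 1)) := lt_of_le_of_lt (le_max_left _ _) h1
  have hLk : L < 2 ^ (2 ^ (q + 1)) := lt_of_le_of_lt (le_max_right _ _) h1
  have h3 : Nat.clog 2 w ≤ 2 ^ (q + 1) := Nat.clog_le_of_le_pow hwk.le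
  have hκ1 : κ ≤ 2 ^ (q + 1) + 2 := by
    have h4 := hκ.trans (add_le_add_left (root hm1 hq hN) 2)
    exact_mod_cast h4
  have hm2 : 2 ≤ m := by
    calc 2 = 2 ^ 1 := by norm_num
      _ ≤ 2 ^ F := Nat.pow_le_pow_right (by norm_num) (by omega)
      _ ≤ m := hm
  clear hκ hw h1
  set k := 2 ^ (q + 1) with hk
  clear_value k
  set Y := k + ((k + 3) * ((4 * a ^ 2 + 1) * k) + 1) with hY
  have h4 : (L + 1) * 2 ^ ((κ + 1) * ((4 * a ^ 2 + 1) * Nat.clog 2 w) + 1) ≤ 2 ^ Y := by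
    calc (L + 1) * 2 ^ ((κ + 1) * ((4 * a ^ 2 + 1) * Nat.clog 2 w) + 1)
        ≤ 2 ^ k * 2 ^ ((k + 3) * ((4 * a ^ 2 + 1) * k) + 1) := by
          refine Nat.mul_le_mul hLk (Nat.pow_le_pow_right (by norm_num) ?_)
          have h5 := Nat.mul_le_mul_left (4 * a ^ 2 + 1) h3
          have h6 : κ + 1 ≤ k + 3 := by omega
          exact Nat.add_le_add_right (Nat.mul_le_mul h6 h5) 1
      _ = 2 ^ Y := (pow_add _ _ _).symm
  have h5 : Y + 1 ≤ m / (2 * (κ + 1)) := by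
    rw [Nat.le_div_iff_mul_le (by omega)]
    refine le_trans (Nat.mul_le_mul_left _ ?_) h2
    omega
  have h6 : 2 * ((κ + 1) * (m / (2 * (κ + 1)))) ≤ m := by
    have := Nat.mul_div_le m (2 * (κ + 1))
    rw [mul_assoc] at this
    exact this
  have h7 : m / (2 * (κ + 1)) ≤ m := Nat.div_le_self _ _
  have h8 : 3 * κ * 2 ≤ m := by
    have h9 : k + 1 ≤ Y := by omega
    have h10 : (k + 2) * (2 * (k + 3)) ≤ m :=
      le_trans (Nat.mul_le_mul_right _ (by omega)) h2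
    have h11 : 6 * κ ≤ (k + 2) * (2 * (k + 3)) := by nlinarith
    omega
  refine ⟨by omega, h4.trans (Nat.pow_le_pow_right (by norm_num) (by omega)), ?_⟩
  calc (L + 1) * 2 ^ ((κ + 1) * ((4 * a ^ 2 + 1) * Nat.clog 2 w) + 1) ≤ 2 ^ Y := h4
    _ < 2 ^ (m / (2 * (κ + 1))) := Nat.pow_lt_pow_right (by norm_num) (by omega)
    _ ≤ n ^ (m / (2 * (κ + 1))) := Nat.pow_le_pow_left (by nlinarith) _

end MNUF

theorem t_NUF : S_NUF := by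
  refine ⟨2 ^ 47, fun m hm n a N w L κ hn _ ha _ hN hκ hw => ?_⟩
  have hm0 : m ≠ 0 := by
    have : 0 < 2 ^ 47 := by positivity
    omega
  have hF : 47 ≤ Nat.log 2 m := Nat.le_log_of_pow_le (by norm_num) hm
  exact MNUF.main hF (Nat.pow_log_le_self 2 hm0) (Nat.lt_pow_succ_log_self (by norm_num) m) rfl
    hn ha hN hκ hw

end Pool.Agent.DAP
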