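import Pool.Agent.DAP.St

/-!
# DAP_OBY: a protocol for an oblivious branching program with inequalities (helper39)

Adapted from `Pool/Agent/DAO/OBX.lean` of helper25.
-/

set_option autoImplicit false

namespace Pool.Agent.DAP

open Finset Pool.Agent.OB Pool.Agent.DGO

namespace MOBY

/-- the end of the interval before `j` -/
def tm (len T j : ℕ) : ℕ := min (j * len) T

/-- one interval -/
lemma step {V P Q : Type} {σ : ℕ → V} {T w len : ℕ} {own : ℕ → Bool} {em : P → Q → V → Bool}
    (hP : ∀ t < T, own (t / len) = true → ∀ p q q', em p q (σ t) = em p q' (σ t))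
    (hQ : ∀ t < T, own (t / len) = false → ∀ p p' q, em p q (σ t) = em p' q (σ t))
    (δ : ℕ → Fin w → Bool → Fin w) (q₀ : Fin w) (j : ℕ) {p p' : P} {q q' : Q}
    (hp : own j = true → p = p') (hq : own j = false → q = q')
    (h : run δ σ q₀ (em p q) (tm len T j) = run δ σ q₀ (em p' q') (tm len T j)) :
    run δ σ q₀ (em p q) (tm len T (j + 1)) = run δ σ q₀ (em p' q') (tm len T (j + 1)) := by
  have key : ∀ d : ℕ, tm len T j + d ≤ tm len T (j + 1) →
      run δ σ q₀ (em p q) (tm len T j + d) = run δ σ q₀ (em p' q') (tm len T j + d) := by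
    intro d
    induction d with
    | zero => exact fun _ => h
    | succ d ih =>
      intro hd
      have h1 := ih (by omega)
      have h2 : tm len T j + d < T := by
        have : tm len T (j + 1) ≤ T := min_le_right _ _
        omega
      have h3 : tm len T j + d < (j + 1) * len := by
        have : tm len T (j + 1) ≤ (j + 1) * len := min_le_left _ _
        omega
      have h4 : j * len ≤ tm len T j + d := by
        rcases min_choice (j * len) T with h5 | h5
        · have : tm len T j = j * len := h5
          omega
        · have : tm len T j = T := h5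
          omega
      have h5 : (tm len T j + d) / len = j := Nat.div_eq_of_lt_le h4 h3
      have h6 : em p q (σ (tm len T j + d)) = em p' q' (σ (tm len T j + d)) := by
        cases ho : own j with
        | true =>
          have h7 := hp ho
          rw [← h5] at ho
          rw [← h7]
          exact hP _ h2 ho p q q'
        | false =>
          have h7 := hq ho
          rw [← h5] at ho
          rw [← h7]
          exact hQ _ h2 ho p p' q
      have h7 : tm len T j + (d + 1) = (tm len T j + d) + 1 := rfl
      rw [h7]
      change δ _ (run δ σ q₀ (em p q) (tm len T j + d)) _ =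
        δ _ (run δ σ q₀ (em p' q') (tm len T j + d)) _
      rw [h1, h6]
  have hmono : tm len T j ≤ tm len T (j + 1) :=
    min_le_min_right _ (Nat.mul_le_mul_right _ (Nat.le_succ j))
  have h8 := key (tm len T (j + 1) - tm len T j) (by omega)
  rwa [Nat.add_sub_cancel' hmono] at h8

/-- the state is determined by its bits -/
lemma bits {w κ : ℕ} (hw : w ≤ 2 ^ κ) {a b : Fin w}
    (h : ∀ i < κ, a.val.testBit i = b.val.testBit i) : a = b := by
  apply Fin.ext
  apply Nat.eq_of_testBit_eq
  intro i
  rcases lt_or_ge i κ with hi | hi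
  · exact h i hi
  · have h1 : ∀ c : Fin w, c.val.testBit i = false := fun c =>
      Nat.testBit_eq_false_of_lt ((c.2.trans_le hw).trans_le
        (Nat.pow_le_pow_right (by norm_num) hi))
    rw [h1 a, h1 b]

end MOBY

open MOBY in
theorem t_OBY : S_OBY := by
  classical
  intro V P Q hV hnP hnQ σ T w J len own em f hT hP hQ hsplit hf
  obtain ⟨δ, q₀, a, b, hacc⟩ := hf
  obtain ⟨κ, hκ⟩ : ∃ κ, κ = Nat.clog 2 w := ⟨_, rfl⟩
  have hw : w ≤ 2 ^ κ := by
    rw [hκ]
    exact Nat.le_pow_clog (by norm_num) w
  rw [← hκ]
  -- the state at the beginning of the interval `j`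
  have hagree : ∀ (j : ℕ) (p p' : P) (q q' : Q),
      (∀ e < j * κ, (run δ σ q₀ (em p q) (tm len T (e / κ + 1))).val.testBit (e % κ) =
        (run δ σ q₀ (em p' q') (tm len T (e / κ + 1))).val.testBit (e % κ)) →
      run δ σ q₀ (em p q) (tm len T j) = run δ σ q₀ (em p' q') (tm len T j) := by
    intro j p p' q q' h
    cases j with
    | zero =>
      have h0 : tm len T 0 = 0 := by
        unfold tm
        rw [Nat.zero_mul]
        exact Nat.zero_min T
      rw [h0]
      rfl
    | succ j =>
      apply bits hw
      intro i hi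
      have h1 : (j * κ + i) / κ = j := by
        apply Nat.div_eq_of_lt_le
        · omega
        · rw [Nat.add_mul]
          omega
      have h2 : (j * κ + i) % κ = i := by
        rw [Nat.mul_comm, Nat.mul_add_mod]
        exact Nat.mod_eq_of_lt hi
      have h3 := h (j * κ + i) (by rw [Nat.add_mul]; omega)
      rw [h1, h2] at h3
      exact h3
  -- the bits
  obtain ⟨β, hβ⟩ : ∃ β : ℕ → P → Q → Bool, β = fun e p q =>
    (run δ σ q₀ (em p q) (tm len T (e / κ + 1))).val.testBit (e % κ) := ⟨_, rfl⟩
  have hlast : ∀ (p p' : P) (q q' : Q), (∀ i < J * κ, β i p q = β i p' q') →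
      run δ σ q₀ (em p q) T = run δ σ q₀ (em p' q') T := by
    intro p p' q q' hbits
    rw [hβ] at hbits
    have h1 := hagree J p p' q q' hbits
    have h2 : tm len T J = T := min_eq_right hT
    rw [h2] at h1
    exact h1
  -- the last state for the digits of `h`
  obtain ⟨p₁⟩ := hnP
  obtain ⟨q₁⟩ := hnQ
  let st : ℕ → Fin w := fun h =>
    if hh : ∃ z : P × Q, ∀ i < J * κ, β i z.1 z.2 = h.testBit i then
      run δ σ q₀ (em hh.choose.1 hh.choose.2) T else q₀
  have hst : ∀ (h : ℕ) (p : P) (q : Q), (∀ i < J * κ, β i p q = h.testBit i) →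
      run δ σ q₀ (em p q) T = st h := by
    intro h p q hbits
    have hh : ∃ z : P × Q, ∀ i < J * κ, β i z.1 z.2 = h.testBit i := ⟨(p, q), hbits⟩
    have h1 : st h = run δ σ q₀ (em hh.choose.1 hh.choose.2) T := dif_pos hh
    rw [h1]
    exact hlast _ _ _ _ fun i hi => (hbits i hi).trans (hh.choose_spec i hi).symm
  refine ⟨fun e => own (e / κ), β,
    fun h p => b (st h) - ∑ v, if (∀ p q q', em p q v = em p q' v) then
      (if em p q₁ v = true then a (st h) v else 0) else 0,
    fun h q => ∑ v, if (∀ p q q', em p q v = em p q' v) then 0 else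
      (if em p₁ q v = true then a (st h) v else 0), ?_, ?_⟩
  · intro e _ p q p' q' hbits hp hq
    rw [hβ] at hbits ⊢
    have h1 : run δ σ q₀ (em p q) (tm len T (e / κ)) =
        run δ σ q₀ (em p' q') (tm len T (e / κ)) :=
      hagree (e / κ) p p' q q' fun i hi => hbits i (hi.trans_le (Nat.div_mul_le_self e κ))
    have h2 := step hP hQ δ q₀ (e / κ) hp hq h1
    change Nat.testBit _ _ = Nat.testBit _ _
    rw [h2]
  · intro h p q hbits
    have h1 := hst h p q hbits
    have h2 := hacc (em p q)
    rw [h1] at h2
    have h3 : (∑ v, if em p q v = true then a (st h) v else 0) =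
        (∑ v, if (∀ p q q', em p q v = em p q' v) then
          (if em p q₁ v = true then a (st h) v else 0) else 0) +
        ∑ v, if (∀ p q q', em p q v = em p q' v) then 0 else
          (if em p₁ q v = true then a (st h) v else 0) := by
      rw [← Finset.sum_add_distrib]
      refine Finset.sum_congr rfl fun v _ => ?_
      by_cases hv : ∀ p q q', em p q v = em p q' v
      · rw [if_pos hv, if_pos hv, add_zero, hv p q q₁]
      · rw [if_neg hv, if_neg hv, zero_add, (hsplit v).resolve_left hv p p₁ q]
    rw [h3] at h2
    change f (em p q) = false ↔ _ < _ - _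
    rw [← Bool.not_eq_true, h2, not_le, lt_sub_iff_add_lt']

end Pool.Agent.DAP
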