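import Pool.Agent.DAP.St

set_option autoImplicit false

namespace Pool.Agent.DAP

open Finset Pool.Agent.OB Pool.Agent.DGO

theorem t_PSM : S_PSM := by
  classical
  intro I _ _ t d r L F h hnest hL
  have h1 : ∀ v < L, ((univ : Finset (Ptr I t)).filter fun p =>
      ¬ Good d r (Wc d F v p) p).card * Fintype.card I ^ r ≤ Fintype.card (Ptr I t) := by
    intro v hv
    refine le_trans (Nat.mul_le_mul_right _ (Finset.card_le_card ?_))
      (h ((univ : Finset (Ptr I t)).image fun p => Wc d F v p) ?_)
    · intro p hp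
      rw [Finset.mem_filter] at hp ⊢
      exact ⟨hp.1, _, Finset.mem_image_of_mem _ (Finset.mem_univ p), hp.2⟩
    · intro W hW W' hW'
      obtain ⟨p, -, rfl⟩ := Finset.mem_image.1 hW
      obtain ⟨p', -, rfl⟩ := Finset.mem_image.1 hW'
      rcases hnest v hv p p' with h2 | h2
      · exact Or.inl (Finset.sdiff_subset_sdiff h2 (Finset.Subset.refl _))
      · exact Or.inr (Finset.sdiff_subset_sdiff h2 (Finset.Subset.refl _))
  by_contra hcon
  push Not at hcon
  have h2 : (univ : Finset (Ptr I t)) ⊆ (range L).biUnion fun v =>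
      (univ : Finset (Ptr I t)).filter fun p => ¬ Good d r (Wc d F v p) p := by
    intro p _
    obtain ⟨v, hv, hp⟩ := hcon p
    exact Finset.mem_biUnion.2 ⟨v, Finset.mem_range.2 hv,
      Finset.mem_filter.2 ⟨Finset.mem_univ _, hp⟩⟩
  have h3 : Fintype.card (Ptr I t) * Fintype.card I ^ r ≤ L * Fintype.card (Ptr I t) := by
    calc Fintype.card (Ptr I t) * Fintype.card I ^ r
        ≤ (∑ v ∈ range L, ((univ : Finset (Ptr I t)).filter fun p =>
            ¬ Good d r (Wc d F v p) p).card) * Fintype.card I ^ r :=
          Nat.mul_le_mul_right _ (by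
            rw [← Finset.card_univ]
            exact (Finset.card_le_card h2).trans Finset.card_biUnion_le)
      _ = ∑ v ∈ range L, ((univ : Finset (Ptr I t)).filter fun p =>
            ¬ Good d r (Wc d F v p) p).card * Fintype.card I ^ r := Finset.sum_mul _ _ _
      _ ≤ ∑ _v ∈ range L, Fintype.card (Ptr I t) :=
          Finset.sum_le_sum fun v hv => h1 v (Finset.mem_range.1 hv)
      _ = L * Fintype.card (Ptr I t) := by
          rw [Finset.sum_const, Finset.card_range, smul_eq_mul]
  have h4 : 0 < Fintype.card (Ptr I t) := Fintype.card_pos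
  have h5 : L * Fintype.card (Ptr I t) < Fintype.card I ^ r * Fintype.card (Ptr I t) :=
    Nat.mul_lt_mul_of_pos_right hL h4
  rw [Nat.mul_comm] at h3
  omega

end Pool.Agent.DAP
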