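import Pool.Agent.DAP.St
import Pool.Agent.DAO.RDG

set_option autoImplicit false

namespace Pool.Agent.DAP

open Finset Pool.Agent.OB Pool.Agent.DGO

namespace MRDH

section

variable {P Q : Type} (D M L : ℕ) (f : ℕ → P → Q → Bool) (own : ℕ → ℕ → Bool)
  (β : ℕ → ℕ → P → Q → Bool) (pr : ℕ → ℕ → ℕ)

/-- The bits of the premises. -/
def gam (k e : ℕ) (p : P) (q : Q) : Bool := β (pr k (e / D)) (e % D) p q

/-- The sets. -/
def R (k h u : ℕ) (p : P) (q : Q) : Prop :=
  u ≠ 0 ∧ f k p q = false ∧ (∀ e < D, β k e p q = h.testBit e) ∧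
    ∀ e < Nat.log 2 u, gam D β pr k e p q = u.testBit (Nat.log 2 u - 1 - e)

variable {D M L f own β pr}

theorem bits_rect (h1 : ∀ k ≤ L, ∀ j < D, ∀ p q p' q', (∀ i < j, β k i p q = β k i p' q') →
    (own k j = true → p = p') → (own k j = false → q = q') → β k j p q = β k j p' q')
    (hpr : ∀ k ≤ L, ∀ j, pr k j ≤ L)
    {k h u : ℕ} (hk : k ≤ L) (hu : u < 2 ^ (M * D + 1)) (hu0 : u ≠ 0) {p p' : P} {q q' : Q}
    (a3 : ∀ e < D, β k e p q = h.testBit e)
    (a4 : ∀ e < Nat.log 2 u, gam D β pr k e p q = u.testBit (Nat.log 2 u - 1 - e))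
    (b3 : ∀ e < D, β k e p' q' = h.testBit e)
    (b4 : ∀ e < Nat.log 2 u, gam D β pr k e p' q' = u.testBit (Nat.log 2 u - 1 - e)) :
    (∀ e < D, β k e p q' = h.testBit e) ∧
    ∀ e < Nat.log 2 u, gam D β pr k e p q' = u.testBit (Nat.log 2 u - 1 - e) := by
  refine ⟨DAO.MRDG.bits h1 hk le_rfl a3 b3, ?_⟩
  intro e he
  have hlog : Nat.log 2 u ≤ M * D := by
    have := Nat.log_lt_of_lt_pow hu0 hu
    omega
  have hD : 0 < D := by
    rcases Nat.eq_zero_or_pos D with h0 | h0
    · rw [h0] at hlog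
      omega
    · exact h0
  have hed := Nat.div_add_mod e D
  have hmod := Nat.mod_lt e hD
  -- the bits of the premise `e / D`
  have hkey : ∀ e' < e % D + 1, D * (e / D) + e' < Nat.log 2 u ∧ (D * (e / D) + e') / D = e / D ∧
      (D * (e / D) + e') % D = e' := by
    intro e' he'
    refine ⟨by omega, ?_, ?_⟩
    · rw [Nat.mul_add_div hD, Nat.div_eq_of_lt (show e' < D by omega), Nat.add_zero]
    · rw [Nat.mul_add_mod, Nat.mod_eq_of_lt (show e' < D by omega)]
  have key := DAO.MRDG.bits h1 (hpr k hk (e / D)) (E := e % D + 1) (by omega)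
    (c := fun e' => u.testBit (Nat.log 2 u - 1 - (D * (e / D) + e'))) (p := p) (p' := p')
    (q := q) (q' := q') (fun e' he' => ?_) (fun e' he' => ?_) (e % D) (by omega)
  · show β (pr k (e / D)) (e % D) p q' = _
    rw [key]
    simp only [hed]
  · obtain ⟨k1, k2, k3⟩ := hkey e' he'
    have := a4 _ k1
    unfold gam at this
    rwa [k2, k3] at this
  · obtain ⟨k1, k2, k3⟩ := hkey e' he'
    have := b4 _ k1
    unfold gam at this
    rwa [k2, k3] at this

theorem step_c {k h u : ℕ} (hu : u ≠ 0) {p : P} {q : Q} (ha : R D f β pr k h u p q) :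
    R D f β pr k h (2 * u) p q ∨ R D f β pr k h (2 * u + 1) p q := by
  obtain ⟨a1, a2, a3, a4⟩ := ha
  have key : ∀ b : ℕ, b < 2 → gam D β pr k (Nat.log 2 u) p q = (2 * u + b).testBit 0 →
      R D f β pr k h (2 * u + b) p q := by
    intro b hb hbit
    refine ⟨by omega, a2, a3, ?_⟩
    rw [DAO.MRDG.log_double hu hb]
    intro e he
    rcases Nat.lt_succ_iff_lt_or_eq.1 he with he | rfl
    · rw [a4 e he]
      have : Nat.log 2 u + 1 - 1 - e = (Nat.log 2 u - 1 - e) + 1 := by omega
      rw [this, DAO.MRDG.testBit_double hb]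
    · rw [hbit]
      congr 1
      omega
  cases hg : gam D β pr k (Nat.log 2 u) p q with
  | false =>
    left
    have := key 0 (by norm_num) (by rw [hg]; simp [Nat.testBit_zero])
    simpa using this
  | true =>
    right
    exact key 1 (by norm_num) (by rw [hg]; simp [Nat.testBit_zero, Nat.add_mod])

/-- The number of a set. -/
def num (D B k h u : ℕ) : ℕ := (k * 2 ^ D + h) * B + (B - 1 - u)

theorem num_lt {B k h k' h' u u' : ℕ} (hB : 0 < B) (hk : k < k') (hh : h < 2 ^ D) :
    num D B k h u < num D B k' h' u' := by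
  unfold num
  have h1 : k * 2 ^ D + h + 1 ≤ k' * 2 ^ D + h' := by
    have : (k + 1) * 2 ^ D ≤ k' * 2 ^ D := Nat.mul_le_mul_right _ hk
    rw [Nat.add_mul, Nat.one_mul] at this
    omega
  have h2 := Nat.mul_le_mul_right B h1
  rw [Nat.add_mul, Nat.one_mul] at h2
  omega

theorem num_lt2 {B k h u u' : ℕ} (hu : u < u') (hu' : u' < B) :
    num D B k h u' < num D B k h u := by
  unfold num
  omega

theorem num_dec {B : ℕ} (hB : 0 < B) (v : ℕ) : num D B (v / B / 2 ^ D) (v / B % 2 ^ D)
    (B - 1 - v % B) = v := by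
  unfold num
  rw [Nat.div_add_mod']
  have h1 : v % B < B := Nat.mod_lt _ hB
  have h2 : B - 1 - (B - 1 - v % B) = v % B := by omega
  rw [h2, Nat.div_add_mod']

theorem dec_num {B k h u : ℕ} (hh : h < 2 ^ D) (hu : u < B) :
    num D B k h u / B / 2 ^ D = k ∧ num D B k h u / B % 2 ^ D = h ∧
      B - 1 - num D B k h u % B = u := by
  have hB : 0 < B := by omega
  have hD : 0 < 2 ^ D := by positivity
  have h1 : num D B k h u / B = k * 2 ^ D + h := by
    unfold num
    rw [Nat.mul_comm, Nat.mul_add_div hB, Nat.div_eq_of_lt (by omega), Nat.add_zero]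
  have h2 : num D B k h u % B = B - 1 - u := by
    unfold num
    rw [Nat.mul_comm, Nat.mul_add_mod, Nat.mod_eq_of_lt (by omega)]
  refine ⟨?_, ?_, ?_⟩
  · rw [h1, Nat.mul_comm, Nat.mul_add_div hD, Nat.div_eq_of_lt hh, Nat.add_zero]
  · rw [h1, Nat.mul_comm, Nat.mul_add_mod, Nat.mod_eq_of_lt hh]
  · rw [h2]
    omega

theorem enum (S : Finset ℕ) (κ : ℕ) (hS : S.card ≤ κ) (L : ℕ) (hL : ∀ i ∈ S, i ≤ L) :
    ∃ g : ℕ → ℕ, (∀ j, g j ≤ L) ∧ ∀ i ∈ S, ∃ j < κ, g j = i := by
  classical
  refine ⟨fun j => if h : j < S.card then S.orderEmbOfFin rfl ⟨j, h⟩ else 0, fun j => ?_,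
    fun i hi => ?_⟩
  · by_cases h : j < S.card
    · show (if h : j < S.card then S.orderEmbOfFin rfl ⟨j, h⟩ else 0) ≤ L
      rw [dif_pos h]
      exact hL _ (Finset.orderEmbOfFin_mem _ _ _)
    · show (if h : j < S.card then S.orderEmbOfFin rfl ⟨j, h⟩ else 0) ≤ L
      rw [dif_neg h]
      exact Nat.zero_le _
  · have : i ∈ Set.range (S.orderEmbOfFin rfl) := by
      rw [Finset.range_orderEmbOfFin]
      exact hi
    obtain ⟨j, hj⟩ := this
    refine ⟨j, lt_of_lt_of_le j.2 hS, ?_⟩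
    show (if h : (j : ℕ) < S.card then S.orderEmbOfFin rfl ⟨j, h⟩ else 0) = i
    rw [dif_pos j.2]
    exact hj

end

end MRDH

open MRDH

theorem t_RDH (hBIT : Pool.Agent.DAO.S_BIT) : S_RDH := by
  classical
  intro I _ _ t D L κ G f hκ hf ⟨k₀, hk₀, hf₀⟩
  -- the lines with the extra line
  let f' : ℕ → Ptr I t → Arr I t → Bool := fun k => if k < L then f k else fun _ _ => false
  have hf'1 : ∀ k < L, f' k = f k := fun k hk => if_pos hk
  have hf'2 : ∀ p V, f' L p V = false := fun p V => by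
    show (if L < L then f L else fun _ _ => false) p V = false
    rw [if_neg (lt_irrefl L)]
  have hTP : ∀ k, ∃ (own : ℕ → Bool) (β : ℕ → Ptr I t → Arr I t → Bool)
      (x : ℕ → Ptr I t → ℝ) (y : ℕ → Arr I t → ℝ), k ≤ L →
      (∀ j < D, ∀ p q p' q', (∀ i < j, β i p q = β i p' q') → (own j = true → p = p') →
      (own j = false → q = q') → β j p q = β j p' q') ∧
      (∀ h p q, (∀ i < D, β i p q = h.testBit i) → (f' k p q = false ↔ y h q < x h p)) ∧
      (k = L → ∀ i p q, β i p q = false) := by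
    intro k
    by_cases hk : k < L
    · obtain ⟨own, β, x, y, h1, h2⟩ := (hf k hk).1
      refine ⟨own, β, x, y, fun _ => ⟨h1, ?_, fun h => absurd h (by omega)⟩⟩
      rw [hf'1 k hk]
      exact h2
    · refine ⟨fun _ => true, fun _ _ _ => false, fun _ _ => 1, fun _ _ => 0,
        fun hkL => ⟨?_, ?_, ?_⟩⟩
      · intros; rfl
      · intro h p q _
        obtain rfl : k = L := by omega
        rw [hf'2]
        simp
      · intros; rfl
  choose own β x y hβ using hTP
  have hprem : ∀ k, ∃ (E : CNF I) (S : Finset ℕ), k ≤ L → E ⊆ G ∧ E.card ≤ κ ∧ S.card ≤ κ ∧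
      (∀ i ∈ S, i < k) ∧ ∀ p V, f' k p V = false →
        (∃ i ∈ S, f' i p V = false) ∨ ∃ C ∈ E, ¬ Sat (fun i => V i (p i)) C := by
    intro k
    by_cases hk : k < L
    · obtain ⟨E, S, h1, h2, h3, h4, h5⟩ := (hf k hk).2
      refine ⟨E, S, fun _ => ⟨h1, h2, h3, h4, fun p V hV => ?_⟩⟩
      rw [hf'1 k hk] at hV
      rcases h5 p V hV with ⟨i, hi, hi'⟩ | h
      · left
        refine ⟨i, hi, ?_⟩
        rw [hf'1 i ((h4 i hi).trans hk)]
        exact hi'
      · exact Or.inr h
    · refine ⟨∅, {k₀}, fun hkL => ⟨Finset.empty_subset _, by simp, by simp; omega, ?_, ?_⟩⟩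
      · intro i hi
        rw [Finset.mem_singleton.1 hi]
        omega
      · intro p V _
        left
        refine ⟨k₀, Finset.mem_singleton_self _, ?_⟩
        rw [hf'1 k₀ hk₀]
        exact hf₀ p V
  choose Ek Sk hp using hprem
  have hpr : ∀ k, ∃ g : ℕ → ℕ, k ≤ L → (∀ j, g j ≤ L) ∧ ∀ i ∈ Sk k, ∃ j < κ, g j = i := by
    intro k
    by_cases hk : k ≤ L
    · obtain ⟨g, h1, h2⟩ := enum (Sk k) κ (hp k hk).2.2.1 L
        (fun i hi => (((hp k hk).2.2.2.1 i hi).trans_le hk).le)
      exact ⟨g, fun _ => ⟨h1, h2⟩⟩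
    · exact ⟨fun _ => 0, fun h => absurd h hk⟩
  choose pr hpr using hpr
  have h1 : ∀ k ≤ L, ∀ j < D, ∀ p q p' q', (∀ i < j, β k i p q = β k i p' q') →
      (own k j = true → p = p') → (own k j = false → q = q') → β k j p q = β k j p' q' :=
    fun k hk => (hβ k hk).1
  have hpr1 : ∀ k ≤ L, ∀ j, pr k j ≤ L := fun k hk => (hpr k hk).1
  obtain ⟨B, hB⟩ : ∃ B, B = 2 ^ (κ * D + 1) := ⟨_, rfl⟩
  have hBpos : 0 < B := by rw [hB]; positivity
  have hDpos : 0 < 2 ^ D := by positivity
  let F : ℕ → Ptr I t → Finset (Arr I t) := fun v p =>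
    univ.filter fun V => R D f' β pr (v / B / 2 ^ D) (v / B % 2 ^ D) (B - 1 - v % B) p V
  have hF : ∀ k h u, h < 2 ^ D → u < B → ∀ p V,
      V ∈ F (num D B k h u) p ↔ R D f' β pr k h u p V := by
    intro k h u hh hu p V
    obtain ⟨e1, e2, e3⟩ := dec_num (k := k) hh hu
    show V ∈ (univ.filter fun V => R D f' β pr (num D B k h u / B / 2 ^ D)
      (num D B k h u / B % 2 ^ D) (B - 1 - num D B k h u % B) p V) ↔ _
    rw [e1, e2, e3]
    simp
  have htot : (L + 1) * 2 ^ ((κ + 1) * D + 1) = (L + 1) * 2 ^ D * B := by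
    rw [hB, Nat.mul_assoc, ← pow_add]
    congr 2
    ring
  have hdec : ∀ v < (L + 1) * 2 ^ ((κ + 1) * D + 1), ∃ k ≤ L, ∃ h < 2 ^ D, ∃ u < B,
      v = num D B k h u := by
    intro v hv
    rw [htot] at hv
    have e1 : v / B < (L + 1) * 2 ^ D := Nat.div_lt_of_lt_mul (hv.trans_eq (Nat.mul_comm _ _))
    have e2 : v / B / 2 ^ D < L + 1 := Nat.div_lt_of_lt_mul (e1.trans_eq (Nat.mul_comm _ _))
    exact ⟨v / B / 2 ^ D, by omega, v / B % 2 ^ D, Nat.mod_lt _ hDpos,
      B - 1 - v % B, by omega, (num_dec hBpos v).symm⟩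
  refine ⟨F, ?_, ?_, ?_⟩
  · -- nested
    intro v hv
    obtain ⟨k, hk, h, hh, u, hu, rfl⟩ := hdec v hv
    have main : ∀ p p', (F (num D B k h u) p').Nonempty → x k h p ≤ x k h p' →
        F (num D B k h u) p ⊆ F (num D B k h u) p' := by
      intro p p' ⟨V', hV'⟩ hle V hV
      rw [hF k h u hh hu] at hV hV' ⊢
      obtain ⟨a1, a2, a3, a4⟩ := hV
      obtain ⟨b1, b2, b3, b4⟩ := hV'
      obtain ⟨c3, c4⟩ := bits_rect (M := κ) h1 hpr1 hk (by rw [← hB]; exact hu) a1 b3 b4 a3 a4
      refine ⟨a1, ?_, c3, c4⟩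
      rw [(hβ k hk).2.1 h p' V c3]
      exact lt_of_lt_of_le (((hβ k hk).2.1 h p V a3).1 a2) hle
    intro p p'
    rcases Finset.eq_empty_or_nonempty (F (num D B k h u) p) with he | he
    · left
      rw [he]
      exact Finset.empty_subset _
    rcases Finset.eq_empty_or_nonempty (F (num D B k h u) p') with he' | he'
    · right
      rw [he']
      exact Finset.empty_subset _
    rcases le_total (x k h p) (x k h p') with hle | hle
    · exact Or.inl (main p p' he' hle)
    · exact Or.inr (main p' p he hle)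
  · -- the steps
    intro v hv
    obtain ⟨k, hk, h, hh, u, hu, rfl⟩ := hdec v hv
    by_cases hu0 : u = 0
    · refine ⟨∅, ∅, Finset.empty_subset _, by simp, by simp, by simp, fun p V hV => ?_⟩
      exact absurd hu0 ((hF k h u hh hu p V).1 hV).1
    have hlog : Nat.log 2 u ≤ κ * D := by
      have := Nat.log_lt_of_lt_pow hu0 (hu.trans_eq hB)
      omega
    rcases Nat.lt_or_ge (Nat.log 2 u) (κ * D) with hlt | hge
    · -- split
      have hu2 : 2 * u + 1 < B := by
        have h3 := Nat.lt_pow_succ_log_self (b := 2) (by norm_num) u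
        have h4 : 2 ^ (Nat.log 2 u + 1) ≤ 2 ^ (κ * D) := Nat.pow_le_pow_right (by norm_num) hlt
        have h5 : u < 2 ^ (κ * D) := lt_of_lt_of_le h3 h4
        rw [hB, pow_succ]
        omega
      refine ⟨∅, {num D B k h (2 * u), num D B k h (2 * u + 1)}, Finset.empty_subset _, by simp,
        (Finset.card_insert_le _ _).trans (by simpa using hκ), ?_, fun p V hV => ?_⟩
      · intro i hi
        rw [Finset.mem_insert, Finset.mem_singleton] at hi
        rcases hi with rfl | rfl
        · exact num_lt2 (by omega) (by omega)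
        · exact num_lt2 (by omega) hu2
      · left
        rcases step_c hu0 ((hF k h u hh hu p V).1 hV) with hr | hr
        · exact ⟨num D B k h (2 * u), by simp, (hF k h (2 * u) hh (by omega) p V).2 hr⟩
        · exact ⟨num D B k h (2 * u + 1), by simp, (hF k h (2 * u + 1) hh hu2 p V).2 hr⟩
    · have hlog2 : Nat.log 2 u = κ * D := le_antisymm hlog hge
      obtain ⟨q1, q2, q3, q4, q5⟩ := hp k hk
      have hcode : ∀ i, ∃ a, i ∈ Sk k → a < 2 ^ D ∧ ∃ j < κ, pr k j = i ∧
          ∀ e < D, a.testBit e = u.testBit (κ * D - 1 - (D * j + e)) := by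
        intro i
        by_cases hi : i ∈ Sk k
        · obtain ⟨j, hj, hji⟩ := (hpr k hk).2 i hi
          obtain ⟨a, ha, hab⟩ := hBIT D fun e => u.testBit (κ * D - 1 - (D * j + e))
          exact ⟨a, fun _ => ⟨ha, j, hj, hji, hab⟩⟩
        · exact ⟨0, fun h => absurd h hi⟩
      choose cd hcd using hcode
      have h1B : 1 < B := by rw [hB]; exact Nat.one_lt_two_pow (by omega)
      refine ⟨Ek k, (Sk k).image fun i => num D B i (cd i) 1, q1, q2,
        Finset.card_image_le.trans q3, ?_, fun p V hV => ?_⟩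
      · intro v hv
        obtain ⟨i, hi, rfl⟩ := Finset.mem_image.1 hv
        exact num_lt hBpos (q4 i hi) (hcd i hi).1
      · obtain ⟨-, r2, r3, r4⟩ := (hF k h u hh hu p V).1 hV
        rw [hlog2] at r4
        rcases q5 p V r2 with ⟨i, hi, hif⟩ | hC
        · left
          obtain ⟨ha, j, hj, hji, hab⟩ := hcd i hi
          refine ⟨num D B i (cd i) 1, Finset.mem_image_of_mem _ hi, ?_⟩
          rw [hF i (cd i) 1 ha h1B]
          refine ⟨one_ne_zero, hif, fun e he => ?_, fun e he => ?_⟩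
          · have hlt : D * j + e < κ * D := by
              have : D * (j + 1) ≤ D * κ := Nat.mul_le_mul_left _ hj
              rw [Nat.mul_add, Nat.mul_one, Nat.mul_comm D κ] at this
              omega
            have := r4 (D * j + e) hlt
            unfold gam at this
            rw [Nat.mul_add_div (by omega), Nat.div_eq_of_lt he, Nat.add_zero, Nat.mul_add_mod,
              Nat.mod_eq_of_lt he, hji] at this
            rw [this, hab e he]
          · rw [Nat.log_one_right] at he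
            omega
        · exact Or.inr hC
  · -- the start
    have h1B : 1 < B := by rw [hB]; exact Nat.one_lt_two_pow (by omega)
    refine ⟨num D B L 0 1, ?_, fun p => ?_⟩
    · rw [htot]
      unfold num
      have : (L + 1) * 2 ^ D * B = L * 2 ^ D * B + 2 ^ D * B := by ring
      rw [this, Nat.add_zero]
      have : 1 * B ≤ 2 ^ D * B := Nat.mul_le_mul_right _ hDpos
      omega
    · rw [Finset.eq_univ_iff_forall]
      intro V
      rw [hF L 0 1 hDpos h1B]
      refine ⟨one_ne_zero, hf'2 p V, fun e he => ?_, fun e he => ?_⟩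
      · rw [(hβ L le_rfl).2.2 rfl, Nat.zero_testBit]
      · rw [Nat.log_one_right] at he
        omega

end Pool.Agent.DAP
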