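import Pool.Agent.DAP.St

/-!
# Project DAP, module SMM: a maximal inequality
-/

set_option autoImplicit false

namespace Pool.Agent.DAP.MSMM

open Finset Pool.Agent.OB Pool.Agent.DGO Pool.Agent.DAP

variable {I : Type} {t : ℕ}

theorem abs_sg (b : Bool) : |sg b| = 1 := by
  cases b <;> simp [sg]

theorem abs_bias_le (W : Finset (Arr I t)) (p : Ptr I t) (T : Finset I) :
    |bias W p T| ≤ (W.card : ℝ) := by
  unfold bias
  refine (abs_sum_le_sum_abs _ _).trans ?_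
  have h : ∑ V ∈ W, |∏ i ∈ T, sg (V i (p i))| = ∑ _V ∈ W, (1 : ℝ) :=
    sum_congr rfl fun V _ => by
      rw [abs_prod]
      exact prod_eq_one fun i _ => abs_sg _
  rw [h, sum_const, nsmul_eq_mul, mul_one]

theorem two_pow_le (K d : ℕ) (hK : 1 ≤ K) :
    (2 : ℝ) ^ d ≤ (1 + 1 / (2 * (K : ℝ))) ^ (2 * K * d) := by
  have hK' : (0 : ℝ) < K := by exact_mod_cast hK
  have h0 : (0 : ℝ) < 1 / (2 * (K : ℝ)) := by positivity
  have h1 := one_add_mul_le_pow (a := 1 / (2 * (K : ℝ))) (by linarith) (2 * K)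
  have h2 : 1 + ((2 * K : ℕ) : ℝ) * (1 / (2 * (K : ℝ))) = 2 := by
    push_cast
    field_simp
    norm_num
  rw [h2] at h1
  rw [pow_mul]
  exact pow_le_pow_left₀ (by norm_num) h1 d

/-- The level of a real number between `A` and `2 ^ d A`. -/
theorem level (K d : ℕ) (hK : 1 ≤ K) (A x : ℝ) (hA : 0 ≤ A) (h1 : A ≤ x) (h2 : x ≤ A * 2 ^ d) :
    ∃ j ≤ 2 * K * d, A * (1 + 1 / (2 * (K : ℝ))) ^ j ≤ x ∧
      x ≤ A * (1 + 1 / (2 * (K : ℝ))) ^ (j + 1) := by
  classical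
  have hK' : (0 : ℝ) < K := by exact_mod_cast hK
  have h0 : (0 : ℝ) < 1 / (2 * (K : ℝ)) := by positivity
  have hP0 : A * (1 + 1 / (2 * (K : ℝ))) ^ 0 ≤ x := by rw [pow_zero, mul_one]; exact h1
  refine ⟨Nat.findGreatest (fun j => A * (1 + 1 / (2 * (K : ℝ))) ^ j ≤ x) (2 * K * d),
    Nat.findGreatest_le _, ?_, ?_⟩
  · exact Nat.findGreatest_spec (P := fun j => A * (1 + 1 / (2 * (K : ℝ))) ^ j ≤ x)
      (Nat.zero_le _) hP0
  · rcases Nat.lt_or_ge (Nat.findGreatest (fun j => A * (1 + 1 / (2 * (K : ℝ))) ^ j ≤ x)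
      (2 * K * d)) (2 * K * d) with h | h
    · have h3 := Nat.findGreatest_is_greatest
        (P := fun j => A * (1 + 1 / (2 * (K : ℝ))) ^ j ≤ x) (Nat.lt_succ_self _) h
      exact (not_le.1 h3).le
    · refine h2.trans (mul_le_mul_of_nonneg_left ?_ hA)
      refine (two_pow_le K d hK).trans ?_
      exact pow_le_pow_right₀ (by linarith) (h.trans (Nat.le_succ _))

/-- The numbers. -/
theorem numbers (n k d X : ℕ) (hn : 1 ≤ n) (hk : 1 ≤ k)
    (hX : 32 * n ^ 4 * (2 * d + 1) ≤ X) :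
    (4 * n ^ 3) ^ k * (2 * (8 * n) ^ k * d + 1) ≤ X ^ k := by
  have h1 : (32 * n ^ 4 * (2 * d + 1)) ^ k ≤ X ^ k := Nat.pow_le_pow_left hX k
  refine le_trans ?_ h1
  have h2 : 32 * n ^ 4 * (2 * d + 1) = 4 * n ^ 3 * (8 * n * (2 * d + 1)) := by ring
  rw [h2, mul_pow (4 * n ^ 3)]
  refine Nat.mul_le_mul_left _ ?_
  rw [mul_pow (8 * n)]
  have h3 : 2 * d + 1 ≤ (2 * d + 1) ^ k := Nat.le_self_pow (by omega) _
  have h4 : 1 ≤ (8 * n) ^ k := Nat.one_le_pow _ _ (by omega)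
  calc 2 * (8 * n) ^ k * d + 1 ≤ 2 * (8 * n) ^ k * d + (8 * n) ^ k := Nat.add_le_add_left h4 _
    _ = (8 * n) ^ k * (2 * d + 1) := by ring
    _ ≤ (8 * n) ^ k * (2 * d + 1) ^ k := Nat.mul_le_mul_left _ h3

/-- The comparison of a big dangerous member with the smallest one of its level. -/
theorem compare [Fintype I] [DecidableEq I] (K d j : ℕ) (hK : 1 ≤ K) (W N : Finset (Arr I t))
    (p : Ptr I t) (T : Finset I) (hNW : N ⊆ W)
    (h1 : (Fintype.card (Arr I t) : ℝ) * (1 + 1 / (2 * (K : ℝ))) ^ j ≤ (N.card : ℝ) * 2 ^ d)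
    (h2 : (W.card : ℝ) * 2 ^ d ≤
      (Fintype.card (Arr I t) : ℝ) * (1 + 1 / (2 * (K : ℝ))) ^ (j + 1))
    (h3 : (W.card : ℝ) < |bias W p T| * K) :
    (N.card : ℝ) < 2 * (|bias N p T| * K) := by
  have hK' : (0 : ℝ) < K := by exact_mod_cast hK
  have hd : (0 : ℝ) < 2 ^ d := by positivity
  have hle : (N.card : ℝ) ≤ W.card := by exact_mod_cast card_le_card hNW
  have h4 : ((W \ N).card : ℝ) = (W.card : ℝ) - N.card := by
    rw [card_sdiff_of_subset hNW, Nat.cast_sub (card_le_card hNW)]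
  have h5 : ((W.card : ℝ) - N.card) * 2 ^ d ≤ (1 / (2 * (K : ℝ)) * N.card) * 2 ^ d := by
    have e : (Fintype.card (Arr I t) : ℝ) * (1 + 1 / (2 * (K : ℝ))) ^ (j + 1) =
        (Fintype.card (Arr I t) : ℝ) * (1 + 1 / (2 * (K : ℝ))) ^ j +
          1 / (2 * (K : ℝ)) * ((Fintype.card (Arr I t) : ℝ) * (1 + 1 / (2 * (K : ℝ))) ^ j) := by
      rw [pow_succ]; ring
    have h6 : 1 / (2 * (K : ℝ)) * ((Fintype.card (Arr I t) : ℝ) *
        (1 + 1 / (2 * (K : ℝ))) ^ j) ≤ 1 / (2 * (K : ℝ)) * ((N.card : ℝ) * 2 ^ d) :=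
      mul_le_mul_of_nonneg_left h1 (by positivity)
    rw [e] at h2
    nlinarith
  have h7 : (W.card : ℝ) - N.card ≤ 1 / (2 * (K : ℝ)) * N.card := le_of_mul_le_mul_right h5 hd
  have h8 : |bias W p T| ≤ |bias N p T| + ((W.card : ℝ) - N.card) := by
    have e : bias W p T = bias (W \ N) p T + bias N p T := by
      unfold bias
      exact (sum_sdiff hNW).symm
    rw [e]
    refine (abs_add_le _ _).trans ?_
    have h9 := abs_bias_le (W \ N) p T
    rw [h4] at h9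
    linarith
  have h10 : |bias W p T| * K ≤ |bias N p T| * K + (N.card : ℝ) / 2 := by
    calc |bias W p T| * K ≤ (|bias N p T| + 1 / (2 * (K : ℝ)) * N.card) * K :=
          mul_le_mul_of_nonneg_right (h8.trans (by linarith)) hK'.le
      _ = |bias N p T| * K + (N.card : ℝ) / 2 := by field_simp
  linarith

end Pool.Agent.DAP.MSMM

namespace Pool.Agent.DAP

open Finset Pool.Agent.OB Pool.Agent.DGO MSMM

theorem t_SMM : S_SMM := by
  classical
  intro I _ _ t d X Λ p₀ 𝒞 T hX h hN hT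
  have hk : 1 ≤ T.card := hT.card_pos
  have hn : 1 ≤ Fintype.card I := hk.trans (card_le_univ T)
  set n := Fintype.card I with hn'
  set k := T.card with hk'
  have hK : 1 ≤ (8 * n) ^ k := Nat.one_le_pow _ _ (by omega)
  have hKc : (((8 * n) ^ k : ℕ) : ℝ) = (8 * (n : ℝ)) ^ k := by push_cast; rfl
  -- the smallest members of the levels
  have hex : ∀ j : ℕ, ∃ N : Finset (Arr I t),
      (∃ U ∈ 𝒞, (Fintype.card (Arr I t) : ℝ) * (1 + 1 / (2 * (((8 * n) ^ k : ℕ) : ℝ))) ^ j ≤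
        (U.card : ℝ) * 2 ^ d) →
      N ∈ 𝒞 ∧ (Fintype.card (Arr I t) : ℝ) * (1 + 1 / (2 * (((8 * n) ^ k : ℕ) : ℝ))) ^ j ≤
        (N.card : ℝ) * 2 ^ d ∧
        ∀ U ∈ 𝒞, (Fintype.card (Arr I t) : ℝ) * (1 + 1 / (2 * (((8 * n) ^ k : ℕ) : ℝ))) ^ j ≤
          (U.card : ℝ) * 2 ^ d → N.card ≤ U.card := by
    intro j
    by_cases hj : ∃ U ∈ 𝒞, (Fintype.card (Arr I t) : ℝ) *
        (1 + 1 / (2 * (((8 * n) ^ k : ℕ) : ℝ))) ^ j ≤ (U.card : ℝ) * 2 ^ d
    · obtain ⟨U, hU, hU'⟩ := hj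
      obtain ⟨N, hN1, hN2⟩ := exists_min_image (𝒞.filter fun U =>
        (Fintype.card (Arr I t) : ℝ) * (1 + 1 / (2 * (((8 * n) ^ k : ℕ) : ℝ))) ^ j ≤
          (U.card : ℝ) * 2 ^ d) Finset.card ⟨U, mem_filter.2 ⟨hU, hU'⟩⟩
      obtain ⟨hN3, hN4⟩ := mem_filter.1 hN1
      exact ⟨N, fun _ => ⟨hN3, hN4, fun U hU hU' => hN2 U (mem_filter.2 ⟨hU, hU'⟩)⟩⟩
    · exact ⟨∅, fun h => absurd h hj⟩
  choose N hNj using hex
  -- the covering
  have hcov : ((cls Λ p₀).filter fun p => ∃ W ∈ 𝒞, Big d W ∧ Dang W p T) ⊆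
      (range (2 * (8 * n) ^ k * d + 1)).biUnion fun j => (cls Λ p₀).filter fun p => Big d (N j) ∧
        ((N j).card : ℝ) < 2 * (|bias (N j) p T| * (8 * (n : ℝ)) ^ k) := by
    intro p hp
    obtain ⟨hp1, W, hW, hB, hD⟩ := mem_filter.1 hp
    have hB' : (Fintype.card (Arr I t) : ℝ) ≤ (W.card : ℝ) * 2 ^ d := by
      have : Fintype.card (Arr I t) ≤ W.card * 2 ^ d := hB
      exact_mod_cast this
    have hB'' : (W.card : ℝ) * 2 ^ d ≤ (Fintype.card (Arr I t) : ℝ) * 2 ^ d := by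
      refine mul_le_mul_of_nonneg_right ?_ (by positivity)
      exact_mod_cast card_le_univ W
    obtain ⟨j, hj, h1, h2⟩ := level ((8 * n) ^ k) d hK _ _ (Nat.cast_nonneg _) hB' hB''
    obtain ⟨hN1, hN2, hN3⟩ := hNj j ⟨W, hW, h1⟩
    have hNW : N j ⊆ W := by
      rcases hN (N j) hN1 W hW with h' | h'
      · exact h'
      · rw [eq_of_subset_of_card_le h' (hN3 W hW h1)]
    refine mem_biUnion.2 ⟨j, mem_range.2 (by omega), mem_filter.2 ⟨hp1, ?_, ?_⟩⟩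
    · have hone : (1 : ℝ) ≤ (1 + 1 / (2 * (((8 * n) ^ k : ℕ) : ℝ))) ^ j :=
        one_le_pow₀ (by
          have : (0 : ℝ) ≤ 1 / (2 * (((8 * n) ^ k : ℕ) : ℝ)) := by positivity
          linarith)
      have h3 : (Fintype.card (Arr I t) : ℝ) ≤ ((N j).card : ℝ) * 2 ^ d := by
        refine le_trans ?_ hN2
        exact le_mul_of_one_le_right (Nat.cast_nonneg _) hone
      show Fintype.card (Arr I t) ≤ (N j).card * 2 ^ d
      exact_mod_cast h3
    · have h3 := compare ((8 * n) ^ k) d j hK W (N j) p T hNW hN2 h2 (by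
        rw [hKc]; exact hD)
      rw [hKc] at h3
      exact h3
  -- the count
  have hcard : ((cls Λ p₀).filter fun p => ∃ W ∈ 𝒞, Big d W ∧ Dang W p T).card * X ^ k ≤
      (2 * (8 * n) ^ k * d + 1) * (cls Λ p₀).card := by
    have h1 := (card_le_card hcov).trans card_biUnion_le
    refine (Nat.mul_le_mul_right (X ^ k) h1).trans ?_
    rw [sum_mul]
    have h2 : ∀ j ∈ range (2 * (8 * n) ^ k * d + 1),
        ((cls Λ p₀).filter fun p => Big d (N j) ∧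
          ((N j).card : ℝ) < 2 * (|bias (N j) p T| * (8 * (n : ℝ)) ^ k)).card * X ^ k ≤
            (cls Λ p₀).card := by
      intro j _
      by_cases hb : Big d (N j)
      · refine le_trans (Nat.mul_le_mul_right _ (card_le_card ?_)) (h (N j) hb)
        intro p hp
        obtain ⟨hp1, _, hp2⟩ := mem_filter.1 hp
        exact mem_filter.2 ⟨hp1, hp2⟩
      · rw [filter_false_of_mem fun p _ hp => hb hp.1, card_empty, Nat.zero_mul]
        exact Nat.zero_le _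
    refine (sum_le_sum h2).trans ?_
    rw [sum_const, card_range, smul_eq_mul]
  have hnum := numbers n k d X hn hk hX
  have hm : 0 < 2 * (8 * n) ^ k * d + 1 := Nat.succ_pos _
  refine Nat.le_of_mul_le_mul_left ?_ hm
  calc (2 * (8 * n) ^ k * d + 1) * (((cls Λ p₀).filter fun p => ∃ W ∈ 𝒞,
        Big d W ∧ Dang W p T).card * (4 * n ^ 3) ^ k)
      = ((cls Λ p₀).filter fun p => ∃ W ∈ 𝒞, Big d W ∧ Dang W p T).card *
        ((4 * n ^ 3) ^ k * (2 * (8 * n) ^ k * d + 1)) := by ring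
    _ ≤ ((cls Λ p₀).filter fun p => ∃ W ∈ 𝒞, Big d W ∧ Dang W p T).card * X ^ k :=
        Nat.mul_le_mul_left _ hnum
    _ ≤ _ := hcard

end Pool.Agent.DAP
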