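import Pool.Agent.DAP.St

/-!
# Project DAP, module WLM: there is no state (inferences from many lines)
-/

set_option autoImplicit false

namespace Pool.Agent.DAP

open Finset Pool.Agent.OB Pool.Agent.DGO

namespace MWLM

variable {I : Type} [Fintype I] [DecidableEq I] {t : ℕ}

omit [Fintype I] in
/-- the strategy can be extended -/
lemma hex {w : ℕ} {G : CNF I} {H : Finset I → (I → Bool) → Prop} (hS : Strat G w H)
    (Q T : Finset I) (z : I → Bool) (hH : H Q z) (hc : (Q ∪ T).card ≤ w) :
    ∃ z', H (Q ∪ T) z' ∧ ∀ i ∈ Q, z' i = z i := by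
  induction T using Finset.induction_on with
  | empty =>
    refine ⟨z, ?_, fun _ _ => rfl⟩
    rw [union_empty]
    exact hH
  | insert a T ha ih =>
    rw [union_insert] at hc ⊢
    by_cases h : a ∈ Q ∪ T
    · rw [insert_eq_of_mem h] at hc ⊢
      exact ih hc
    · rw [card_insert_of_notMem h] at hc
      obtain ⟨z', h1, h2⟩ := ih (by omega)
      obtain ⟨b, hb⟩ := hS.ext (Q ∪ T) z' a h1 (by omega) h
      refine ⟨Function.update z' a b, hb, fun i hi => ?_⟩
      have hne : i ≠ a := by
        rintro rfl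
        exact h (mem_union_left _ hi)
      rw [Function.update_of_ne hne]
      exact h2 i hi

/-- a big set is not empty -/
lemma big_ne {d : ℕ} {W : Finset (Arr I t)} (h : Big d W) : W.Nonempty := by
  rw [nonempty_iff_ne_empty]
  rintro rfl
  unfold Big at h
  rw [card_empty, zero_mul] at h
  have : 0 < Fintype.card (Arr I t) := Fintype.card_pos
  omega

/-- a member of the line with given values -/
lemma ex_mem (hFR : S_FR) {d : ℕ} {H : Finset I → (I → Bool) → Prop} {W : Finset (Arr I t)}
    {p : Ptr I t} {Q : Finset I} {z : I → Bool} (hst : State d H W p Q z) (y : I → Bool)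
    (hy : ∀ i ∈ Q, y i = z i) : ∃ V ∈ W, ∀ i, V i (p i) = y i := by
  obtain ⟨_, hB, hD, _⟩ := hst
  obtain ⟨V, hV, h1⟩ := hFR I t (sub W p Q z) p Q (big_ne hB) hD y
  unfold sub at hV
  rw [mem_filter] at hV
  refine ⟨V, hV.1, fun i => ?_⟩
  by_cases hi : i ∈ Q
  · rw [hV.2 i hi, hy i hi]
  · exact h1 i hi

omit [Fintype I] in
/-- the variables of the clauses used -/
lemma card_vars {G E : CNF I} (κ : ℕ) (hEG : E ⊆ G) (hE : E.card ≤ κ)
    (hG : ∀ C ∈ G, C.card ≤ 3) : (E.biUnion fun C => C.image Prod.fst).card ≤ 3 * κ := by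
  have h1 : (E.biUnion fun C => C.image Prod.fst).card ≤ E.card * 3 :=
    card_biUnion_le_card_mul _ _ _ fun C hC =>
      (card_image_le (s := C) (f := Prod.fst)).trans (hG C (hEG hC))
  omega

/-- the lines used are queried one after the other -/
lemma query (hCHD : S_CHD) (hEXT : S_EXT) {d r w κ : ℕ} {G : CNF I}
    {H : Finset I → (I → Bool) → Prop} (F : ℕ → Ptr I t → Finset (Arr I t)) (p : Ptr I t)
    (hS : Strat G w H) (hrw : (κ + 1) * r + 3 * κ ≤ w) (Q' : Finset I) (z' : I → Bool)
    (hQ' : Q'.card ≤ r + 3 * κ) (hH : H Q' z') (S : Finset ℕ) :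
    S.card ≤ κ → (∀ u ∈ S, Good d r (Wc d F u p) p) →
    ∃ (g : ℕ → Finset I) (y : I → Bool), H (Q' ∪ S.biUnion g) y ∧ (∀ i ∈ Q', y i = z' i) ∧
      ∀ u ∈ S, (g u).card ≤ r ∧ Chain d (Wc d F u p) p (g u) y ∧
        (Big d (sub (Wc d F u p) p (g u) y) → ∀ T : Finset I, T.Nonempty → Disjoint T (g u) →
          ¬ Dang (sub (Wc d F u p) p (g u) y) p T) := by
  induction S using Finset.induction_on with
  | empty =>
    intro _ _
    refine ⟨fun _ => ∅, z', ?_, fun _ _ => rfl, ?_⟩
    · rw [biUnion_empty, union_empty]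
      exact hH
    · intro u hu
      exact absurd hu (notMem_empty u)
  | insert u S hu ih =>
    intro hc hgood
    rw [card_insert_of_notMem hu] at hc
    obtain ⟨g, y, h1, h2, h3⟩ := ih (by omega) fun v hv => hgood v (mem_insert_of_mem hv)
    have hcard : (Q' ∪ S.biUnion g).card + r ≤ w := by
      have e1 : (Q' ∪ S.biUnion g).card ≤ Q'.card + (S.biUnion g).card := card_union_le _ _
      have e2 : (S.biUnion g).card ≤ S.card * r :=
        card_biUnion_le_card_mul _ _ _ fun v hv => (h3 v hv).1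
      have e3 : (S.card + 1) * r ≤ κ * r := Nat.mul_le_mul_right r hc
      have e4 : (S.card + 1) * r = S.card * r + r := by ring
      have e5 : (κ + 1) * r = κ * r + r := by ring
      omega
    obtain ⟨Q₁, z₁, a1, a2, a3, a4, a5⟩ := hEXT I t d r w G H (Wc d F u p) p hS
      (hgood u (mem_insert_self u S)) (Q' ∪ S.biUnion g) y h1 hcard
    have hg : ∀ v ∈ S, Function.update g u Q₁ v = g v := by
      intro v hv
      apply Function.update_of_ne
      rintro rfl
      exact hu hv
    have hU : (insert u S).biUnion (Function.update g u Q₁) = Q₁ ∪ S.biUnion g := by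
      rw [biUnion_insert, Function.update_self]
      congr 1
      exact biUnion_congr rfl hg
    refine ⟨Function.update g u Q₁, z₁, ?_, ?_, ?_⟩
    · rw [hU, union_comm Q₁, ← union_assoc]
      exact a1
    · intro i hi
      rw [a2 i (mem_union_left _ hi), h2 i hi]
    · intro v hv
      rcases mem_insert.1 hv with rfl | hv
      · rw [Function.update_self]
        exact ⟨a3, a4, a5⟩
      · rw [hg v hv]
        obtain ⟨b1, b2, b3⟩ := h3 v hv
        obtain ⟨c1, -, c3⟩ := hCHD I t d (Wc d F v p) p p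
        have hag : ∀ i ∈ g v, y i = z₁ i := fun i hi =>
          (a2 i (mem_union_right _ (mem_biUnion.2 ⟨v, hv, hi⟩))).symm
        have e1 : sub (Wc d F v p) p (g v) y = sub (Wc d F v p) p (g v) z₁ :=
          c1 (g v) y z₁ fun i hi => ⟨rfl, hag i hi⟩
        refine ⟨b1, c3 (g v) y z₁ (fun i hi => ⟨rfl, hag i hi⟩) b2, ?_⟩
        rw [← e1]
        exact b3

end MWLM

open MWLM in
/-- WLM: there is no state, for inferences from at most `κ` lines and `κ` clauses. -/
theorem t_WLM (hCHD : S_CHD) (hFR : S_FR) (hBAD : S_BAD) (hEXT : S_EXT) : S_WLM := by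
  intro I _ _ t d r w L κ G H F p hS hrw hG hgood hline v
  obtain ⟨-, hmono, hbig⟩ := hBAD I t d F
  induction v using Nat.strong_induction_on with
  | _ v ih =>
    intro hv Q z hst
    obtain ⟨hC, hB, hD, hH⟩ := id hst
    have hQ : Q.card ≤ r := hgood v hv Q z hC
    obtain ⟨E, S, hEG, hEc, hSc, hSv, hF⟩ := hline v hv
    have hE3 : (E.biUnion fun C => C.image Prod.fst).card ≤ 3 * κ := card_vars κ hEG hEc hG
    have hQc : (Q ∪ E.biUnion fun C => C.image Prod.fst).card ≤ r + 3 * κ :=
      (card_union_le _ _).trans (by omega)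
    have hw : r + 3 * κ ≤ w := by
      have e5 : (κ + 1) * r = κ * r + r := by ring
      omega
    -- the clauses
    obtain ⟨z', hz1, hz2⟩ := hex hS Q (E.biUnion fun C => C.image Prod.fst) z hH (hQc.trans hw)
    -- the lines
    obtain ⟨g, y, h1, h2, h3⟩ := query hCHD hEXT F p hS hrw
      (Q ∪ E.biUnion fun C => C.image Prod.fst) z' hQc hz1 S hSc
      fun u hu => hgood u ((hSv u hu).trans hv)
    obtain ⟨V, hV, hVy⟩ := ex_mem hFR hst y fun i hi => by
      rw [h2 i (mem_union_left _ hi), hz2 i hi]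
    unfold Wc at hV
    rw [mem_sdiff] at hV
    rcases hF V hV.1 with ⟨u, hu, hVu⟩ | ⟨C, hCE, hns⟩
    · -- a state at an earlier line
      obtain ⟨-, b2, b3⟩ := h3 u hu
      have huv : u < v := hSv u hu
      have k1 : V ∈ Wc d F u p := by
        unfold Wc
        rw [mem_sdiff]
        exact ⟨hVu, fun h => hV.2 (hmono u v huv.le h)⟩
      have k2 : V ∈ sub (Wc d F u p) p (g u) y := by
        unfold sub
        rw [mem_filter]
        exact ⟨k1, fun i _ => hVy i⟩
      have k3 := hbig u v p (g u) y V huv k2 hV.2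
      refine ih u huv (huv.trans hv) (g u) y ⟨b2, k3, b3 k3, hS.mono _ _ _ h1 ?_⟩
      intro i hi
      exact mem_union_right _ (mem_biUnion.2 ⟨u, hu, hi⟩)
    · -- a clause
      apply hns
      have h4 : (fun i => V i (p i)) = y := funext hVy
      rw [h4]
      refine hS.good _ y C h1 (hEG hCE) fun l hl => ?_
      exact mem_union_left _ (mem_union_right _ (mem_biUnion.2 ⟨C, hCE, mem_image_of_mem _ hl⟩))

end Pool.Agent.DAP
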