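import Pool.Agent.DAP.Main0
import Pool.Agent.DAP.Core
import Pool.Agent.DAP.SMW
import Pool.Agent.DAP.SMM
import Pool.Agent.DAP.CHM
import Pool.Agent.DAP.GOM
import Pool.Agent.DAP.PSM
import Pool.Agent.DAP.WLM
import Pool.Agent.DAP.OBY
import Pool.Agent.DAP.RDH
import Pool.Agent.DAP.NUE
import Pool.Agent.DAP.NUF
import Pool.Agent.DAO.IDX
import Pool.Agent.DAO.ADR
import Pool.Agent.DAO.PRE
import Pool.Agent.DAO.OCC
import Pool.Agent.DAO.SHR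
import Pool.Agent.DAO.RAM
import Pool.Agent.DAO.BIT
import Pool.Agent.DAO.EMB
import Pool.Agent.DAO.AXI
import Pool.Agent.DAO.PLC
import Pool.Agent.DAO.OBD
import Pool.Agent.DAO.OBM
import Pool.Agent.DAO.NUB
import Pool.Agent.DGO.CLC
import Pool.Agent.DGO.HOF
import Pool.Agent.DGO.MOM
import Pool.Agent.DGO.CHD
import Pool.Agent.DGO.SWP
import Pool.Agent.DGO.FR
import Pool.Agent.DGO.BAD
import Pool.Agent.DGO.ALL
import Pool.Agent.DGO.EXT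
import Pool.Agent.DGO.STA
import Pool.Agent.DGO.PHP
import Pool.Agent.DGO.OST

/-!
# Project DAP: the theorem
-/

set_option autoImplicit false

namespace Pool.Agent.DAP

open Pool.Agent.DGO

theorem corm : S_CORM :=
  t_CORM (t_SMW t_CLC t_HOF t_MOM) t_SMM (t_CHM t_CHD t_SWP) (t_GOM t_CHD) t_PSM
    (t_WLM t_CHD t_FR t_BAD (t_EXT t_CHD)) (t_STA t_CHD t_BAD t_ALL (t_EXT t_CHD))

theorem ref : Pool.Agent.DAP.S_REF :=
  Pool.Agent.DAP.t_REF (DAO.t_RAM DAO.t_PRE DAO.t_OCC DAO.t_SHR) t_OBY (t_RDH DAO.t_BIT)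
    DAO.t_EMB DAO.t_AXI DAO.t_PLC corm

theorem main : Pool.Agent.DAP.S_MAIN :=
  Pool.Agent.DAP.t_MAIN (t_CORE1 ref t_PHP t_NUE DAO.t_NUB t_NUF) t_PHP DAO.t_IDX DAO.t_ADR t_NUE
    DAO.t_NUB (DAO.t_OBD t_OST) DAO.t_OBM

end Pool.Agent.DAP
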