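import Pool.Agent.DAP.Ref
import Pool.Agent.DAO.Main0

/-!
# Project DAP: the assembly
-/

set_option autoImplicit false

namespace Pool.Agent.DAP

open Finset Pool.Agent.OB Pool.Agent.DGO

theorem php_eq (m : ℕ) : php m = EPHP m := rfl

theorem form_eq (m : ℕ) :
    form m = DAO.adr (3 * tt m) (DAO.idx (2 ^ tt m) (DAO.php m)) := rfl

theorem card_FV (m : ℕ) : Fintype.card (FV m) = 2 ^ (3 * tt m) +
    3 * (((m + 1) * (2 * m + 1)) * (2 ^ tt m + 1)) * (3 * tt m) := by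
  simp only [FV, Fintype.card_sum, Fintype.card_prod, Fintype.card_fin, Fintype.card_fun,
    Fintype.card_bool]
  ring

theorem run_eq {V : Type*} {w : ℕ} (δ : ℕ → Fin w → Bool → Fin w) (σ : ℕ → V) (q : Fin w)
    (x : V → Bool) (t : ℕ) : DAO.run δ σ q x t = run δ σ q x t := by
  induction t with
  | zero => rfl
  | succ t ih =>
    show δ t (DAO.run δ σ q x t) _ = δ t (run δ σ q x t) _
    rw [ih]

theorem prog_of_obl {V : Type*} [Fintype V] {σ : ℕ → V} {T w : ℕ} {f : (V → Bool) → Bool}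
    (h : DAO.Obl σ T w f) : Prog σ T w f := by
  obtain ⟨δ, q, acc, hf⟩ := h
  refine ⟨δ, q, fun _ _ => 0, fun u => if acc u = true then 0 else 1, fun x => ?_⟩
  rw [hf x, run_eq]
  have h0 : (∑ v : V, if x v = true then (0 : ℝ) else 0) = 0 :=
    Finset.sum_eq_zero fun v _ => by split <;> rfl
  rw [h0]
  cases hacc : acc (run δ σ q x T)
  · simp [hacc]
  · simp [hacc]

theorem prog_of_ineq {V : Type*} [Fintype V] {σ : ℕ → V} {T w : ℕ} {f : (V → Bool) → Bool}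
    (hw : 1 ≤ w) (h : Ineq f) : Prog σ T w f := by
  obtain ⟨a, b, hf⟩ := h
  exact ⟨fun _ u _ => u, ⟨0, hw⟩, fun _ => a, fun _ => b, hf⟩

theorem ref_mono {V : Type*} {F : CNF V} {κ κ' : ℕ} (h : κ ≤ κ')
    {A A' : ((V → Bool) → Bool) → Prop} (hA : ∀ f, A f → A' f) {L : ℕ} (hr : Ref F κ A L) :
    Ref F κ' A' L := by
  obtain ⟨f, hf, hlast⟩ := hr
  refine ⟨f, fun k hk => ?_, hlast⟩
  obtain ⟨h1, E, S, h2, h3, h4, h5, h6⟩ := hf k hk
  exact ⟨hA _ h1, E, S, h2, h3.trans h, h4.trans h, h5, h6⟩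

/-- The lower bound for oblivious branching programs with inequalities. -/
def S_CORE1 : Prop := ∃ m₀ : ℕ, ∀ m ≥ m₀, ∀ N : ℕ, N = Fintype.card (FV m) →
  ∀ (σ : ℕ → FV m) (T w L κ : ℕ), (T : ℝ) ≤ 1 / 64 * N * Real.logb 2 N →
    (κ : ℝ) ≤ (N : ℝ) ^ (1 / 8000 : ℝ) →
    Ref (form m) κ (Prog σ T w) L → (2 : ℝ) ^ ((N : ℝ) ^ (1 / 8000 : ℝ)) ≤ (max w L : ℕ)

theorem t_CORE1 (hREF : S_REF) (hPHP : Pool.Agent.DGO.S_PHP) (hNUE : S_NUE) (hNUB : DAO.S_NUB)
    (hNUF : S_NUF) : S_CORE1 := by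
  obtain ⟨m₁, hm₁⟩ := hNUF
  obtain ⟨P, hP⟩ : ∃ P : ℕ, P = 2 ^ 128 := ⟨_, rfl⟩
  refine ⟨max m₁ (max P 10), fun m hm N hN σ T w L κ hT hκ href => ?_⟩
  by_contra hcon
  rw [not_le] at hcon
  have hm1 : m₁ ≤ m := (le_max_left _ _).trans hm
  have hm2 : P ≤ m := ((le_max_left _ _).trans (le_max_right _ _)).trans hm
  have hm10 : 10 ≤ m := ((le_max_right _ _).trans (le_max_right _ _)).trans hm
  set n := (m + 1) * (2 * m + 1) with hn
  set a := Nat.clog 2 (2 ^ 16 * n ^ 8) with ha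
  have htt : tt m = 4 * a := rfl
  have hN' : N = 2 ^ (3 * (4 * a)) + 3 * (n * (2 ^ (4 * a) + 1)) * (3 * (4 * a)) := by
    rw [hN, card_FV, htt]
  obtain ⟨h1, h2, h3, h4, h5, h6, h7, h8, h9, h10, h11, h12⟩ :=
    hNUE m n a (4 * a) N (n * (4 * a) + 3 * n + 1 + m) hm10 hn ha rfl hN' rfl
  obtain ⟨hb, -⟩ := hNUB a (4 * a) N h7 rfl h4 (by rw [← hP]; exact hm2.trans h1)
  have hmn : m ^ 2 ≤ n := DAO.sq_le m
  have hκ2 : ((max κ 2 : ℕ) : ℝ) ≤ (N : ℝ) ^ (1 / 8000 : ℝ) + 2 := by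
    rw [Nat.cast_max]
    have h0 : (0 : ℝ) ≤ (N : ℝ) ^ (1 / 8000 : ℝ) := Real.rpow_nonneg (Nat.cast_nonneg _) _
    refine max_le (by linarith) ?_
    rw [Nat.cast_ofNat]
    linarith
  obtain ⟨hc0, hc1, hc2⟩ := hm₁ m hm1 n a N w L (max κ 2) hmn h7 h12 h1 h2 hκ2 hcon
  obtain ⟨hu, hw3, hcnt, hcard, H, hH⟩ := hPHP m (le_trans (by norm_num) hm10)
  have hcI : Fintype.card (PV m) = n := hcard
  have hne : (EPHP m).Nonempty := by
    refine ⟨{((0, Sum.inr 0), false)}, ?_⟩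
    simp only [EPHP, Finset.mem_union]
    exact Or.inl (Or.inl (Or.inl (Finset.mem_image.2 ⟨0, Finset.mem_univ _, rfl⟩)))
  have hn3 : 3 ≤ n := DAO.three_le m hm10
  have key := hREF (PV m) (3 * (4 * a)) a T w L a (n * (4 * a) + 3 * n + 1 + m)
    (m / (2 * (max κ 2 + 1))) m m (max κ 2)
    (EPHP m) H σ h7 h8 (hb T hT) (by rw [hcI]; exact h9) (by rw [hcI]; exact hn3)
    (by rw [hcI]; exact h10) (by rw [hcI]; exact h11) (by rw [hcI]) hc1 (le_max_right _ _) hne hH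
    hc0 hw3 (ref_mono (le_max_left _ _) (fun _ h => h) href)
  rw [hcI] at key
  exact absurd (hc2.trans_le key) (lt_irrefl _)

theorem t_MAIN (hCORE1 : S_CORE1) (hPHP : Pool.Agent.DGO.S_PHP) (hIDX : DAO.S_IDX)
    (hADR : DAO.S_ADR) (hNUE : S_NUE) (hNUB : DAO.S_NUB) (hOBD : DAO.S_OBD)
    (hOBM : DAO.S_OBM) : S_MAIN := by
  classical
  obtain ⟨m₁, hm₁⟩ := hCORE1
  obtain ⟨P, hP⟩ : ∃ P : ℕ, P = 2 ^ 128 := ⟨_, rfl⟩
  refine ⟨1 / 8000, 1 / 128, 500, max m₁ (max P 10), by norm_num, by norm_num,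
    fun m hm N hN => ?_⟩
  have hm1 : m₁ ≤ m := (le_max_left _ _).trans hm
  have hm3 : P ≤ m := ((le_max_left _ _).trans (le_max_right _ _)).trans hm
  have hm10 : 10 ≤ m := ((le_max_right _ _).trans (le_max_right _ _)).trans hm
  set n := (m + 1) * (2 * m + 1) with hn
  set a := Nat.clog 2 (2 ^ 16 * n ^ 8) with ha
  have htt : tt m = 4 * a := rfl
  have hN' : N = 2 ^ (3 * (4 * a)) + 3 * (n * (2 ^ (4 * a) + 1)) * (3 * (4 * a)) := by
    rw [hN, card_FV, htt]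
  obtain ⟨h1, h2, h3, h4, h5, h6, h7, h8, h9, h10, h11, h12⟩ :=
    hNUE m n a (4 * a) N (n * (4 * a) + 3 * n + 1 + m) hm10 hn ha rfl hN' rfl
  obtain ⟨-, hb⟩ := hNUB a (4 * a) N h7 rfl h4 (by rw [← hP]; exact hm3.trans h1)
  obtain ⟨hu, hw3, hcnt, hcard, -⟩ := hPHP m (le_trans (by norm_num) hm10)
  have hcI : Fintype.card (Fin (m + 1) × (Fin m ⊕ Fin (m + 1))) = n := hcard
  obtain ⟨hi1, hi2, hi3⟩ := hIDX _ (2 ^ tt m) (DAO.php m) hw3
  obtain ⟨hd1, hd2, hd3⟩ := hADR _ (3 * tt m) (DAO.idx (2 ^ tt m) (DAO.php m)) hi2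
  have hN1 : 1 ≤ N := le_trans (le_trans (by norm_num) hm10) h1
  have hNpos : (1 : ℝ) ≤ (N : ℝ) := Nat.one_le_cast.2 hN1
  have hNr : (0 : ℝ) ≤ Real.logb 2 N := Real.logb_nonneg (by norm_num) hNpos
  refine ⟨h1, h2, hd1 (hi1 hu), ?_, ?_, ?_, ?_⟩
  · -- the number of clauses
    rw [hcI] at hi3
    calc (form m).card ≤ (DAO.idx (2 ^ tt m) (DAO.php m)).card * 2 ^ (6 * (3 * tt m)) := hd3
      _ ≤ (2 * n + n * 2 ^ (4 * a) + 4 * (m + 1) ^ 3 * (2 ^ (4 * a) + 1) ^ 3) *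
          2 ^ (6 * (3 * (4 * a))) :=
        Nat.mul_le_mul_right _ (hi3.trans (Nat.add_le_add_left (Nat.mul_le_mul_right _ hcnt) _))
      _ ≤ N ^ 500 := h5
  · intro C hC
    obtain ⟨q1, q2⟩ := hd2 C hC
    exact ⟨q2.trans h6, q1⟩
  · intro σ T w L κ hT hκ href
    refine hm₁ m hm1 N hN σ T w L κ (hT.trans ?_) hκ href
    exact DAO.half_le (mul_nonneg (Nat.cast_nonneg _) hNr)
  · intro l s L κ ord hl hκ href
    have hVpos : 0 < Fintype.card (FV m) := by rw [← hN]; exact hN1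
    let ord' : Fin (l + 1) → (FV m ≃ Fin (Fintype.card (FV m))) :=
      Fin.cons (Fintype.equivFin (FV m)) ord
    let σ : ℕ → FV m := fun τ =>
      (ord' (Fin.ofNat (l + 1) (τ / Fintype.card (FV m)))).symm
        ⟨τ % Fintype.card (FV m), Nat.mod_lt _ hVpos⟩
    have hσ : ∀ (k : Fin (l + 1)) (j : Fin (Fintype.card (FV m))),
        σ (k * Fintype.card (FV m) + j) = (ord' k).symm j := by
      intro k j
      have e1 : ((k : ℕ) * Fintype.card (FV m) + j) / Fintype.card (FV m) = k := by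
        rw [Nat.mul_comm, Nat.mul_add_div hVpos, Nat.div_eq_of_lt j.2, Nat.add_zero]
      have e2 : ((k : ℕ) * Fintype.card (FV m) + j) % Fintype.card (FV m) = j := by
        rw [Nat.mul_comm, Nat.mul_add_mod, Nat.mod_eq_of_lt j.2]
      have e3 : Fin.ofNat (l + 1) (((k : ℕ) * Fintype.card (FV m) + j) / Fintype.card (FV m)) = k := by
        rw [e1]
        exact DAO.ofNat_val k
      have e4 : (⟨((k : ℕ) * Fintype.card (FV m) + j) % Fintype.card (FV m),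
          Nat.mod_lt _ hVpos⟩ : Fin (Fintype.card (FV m))) = j := Fin.ext e2
      show (ord' (Fin.ofNat (l + 1) (((k : ℕ) * Fintype.card (FV m) + j) /
        Fintype.card (FV m)))).symm _ = _
      rw [e3, e4]
    have href' : Ref (form m) κ (Prog σ ((l + 1) * Fintype.card (FV m)) (max s 1)) L := by
      refine ref_mono le_rfl (fun f hf => ?_) href
      rcases hf with ⟨i, s', hs', hob⟩ | hin
      · refine prog_of_obl (hOBM _ σ _ s (max s 1) f (le_max_left _ _) ?_)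
        exact hOBD _ (l + 1) s s' ord' i.succ f σ hs'
          (by rw [show ord' i.succ = ord i from Fin.cons_succ _ _ _]; exact hob) hσ
      · exact prog_of_ineq (le_max_right _ _) hin
    have hT := hb l hl
    have key := hm₁ m hm1 N hN σ ((l + 1) * Fintype.card (FV m)) (max s 1) L κ
      (by rw [← hN]; exact hT) hκ href'
    have h2le : (2 : ℝ) ≤ (2 : ℝ) ^ ((N : ℝ) ^ (1 / 8000 : ℝ)) := by
      have h1E : (1 : ℝ) ≤ (N : ℝ) ^ (1 / 8000 : ℝ) := Real.one_le_rpow hNpos (by norm_num)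
      calc (2 : ℝ) = (2 : ℝ) ^ (1 : ℝ) := (Real.rpow_one 2).symm
        _ ≤ _ := Real.rpow_le_rpow_of_exponent_le (by norm_num) h1E
    refine key.trans ?_
    rcases Nat.eq_zero_or_pos s with hs | hs
    · -- no OBDDs
      rcases Nat.lt_or_ge L 2 with hL | hL
      · exfalso
        have : ((max (max s 1) L : ℕ) : ℝ) ≤ 1 := by
          have : max (max s 1) L ≤ 1 := by omega
          exact_mod_cast this
        linarith
      · have : max (max s 1) L = max s L := by omega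
        rw [this]
    · have : max (max s 1) L = max s L := by omega
      rw [this]

end Pool.Agent.DAP
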