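import Pool.Agent.DAP.CD
import Pool.Agent.DAO.St
import Pool.Agent.DGO.St1

/-!
# Project DAP: statements

Every `S_XXX` is proved in `Pool/Agent/DAP/XXX.lean` as `theorem Pool.Agent.DAP.t_XXX : S_XXX` (the
statements used are hypotheses, as written in the doc string). `n = Fintype.card I`.
-/

set_option autoImplicit false

namespace Pool.Agent.DAP

open Finset Pool.Agent.OB Pool.Agent.DGO

/-! ## Families of nested sets -/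

open Classical in
/-- SMW (uses `S_CLC`, `S_HOF`, `S_MOM`): a fixed set is rarely dangerous, with more room.
Proof. The same as `Pool.Agent.DGO.t_SM` (file Pool/Agent/DGO/SM.lean, doc string of `S_SM`), with the
factor 2. `k = |T|`, `R = 2 ^ a'`, `C = |cls Λ p₀|`:
`∑ p, bias² ≤ (R ^ (-k) + 2 k 4 ^ d exp (-R²/2)) |W|² C`. If `p` is in the filter then
`4 bias² (8 n) ^ (2 k) > |W|²`, so the number `D` of these `p` satisfies
`D ≤ 4 (8 n) ^ (2 k) (R ^ (-k) + 2 k 4 ^ d exp (-R²/2)) C`. Multiply with `X ^ k`: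
`4 (64 n² X / R) ^ k ≤ 4 (1/8) ^ k ≤ 1/2`, and
`(64 n² X) ^ k * 8 k * 4 ^ d * exp (-R²/2) ≤ (64 n² X) ^ n * 8 n * 4 ^ d * exp (-R²/2) ≤ 1/2`
as `16 n (64 n² X) ^ n 4 ^ d ≤ 2 ^ (R² / 2) ≤ exp (R² / 2)`. -/
def S_SMW : Prop := ∀ (I : Type) [Fintype I] [DecidableEq I] (t a' d X : ℕ)
  (Λ : I → Finset (Fin t)) (p₀ : Ptr I t) (W : Finset (Arr I t)) (T : Finset I),
  (∀ i, (Λ i).card = 4 * a') → 1 ≤ X → 512 * Fintype.card I ^ 2 * X ≤ 2 ^ a' →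
  16 * Fintype.card I * (64 * Fintype.card I ^ 2 * X) ^ Fintype.card I * 4 ^ d ≤
    2 ^ ((2 ^ a') ^ 2 / 2) →
  Big d W → T.Nonempty →
  ((cls Λ p₀).filter fun p =>
    (W.card : ℝ) < 2 * (|bias W p T| * (8 * (Fintype.card I : ℝ)) ^ T.card)).card * X ^ T.card ≤
      (cls Λ p₀).card

open Classical in
/-- SMM: a maximal inequality. It is rare that some big member of a chain `𝒞` is dangerous.
Proof. `k = |T|`, `K = (8 n) ^ k` (a natural number, `≥ 1`), `δ = 1 / (2 K)`, `A = |Arr|`. For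
`j ≤ 2 K d` let `N j` be a member `U` of `𝒞` with `A (1 + δ) ^ j ≤ |U| 2 ^ d` and the smallest possible
cardinality, if there is such a member (`Finset.exists_min_image`); it is big as `(1 + δ) ^ j ≥ 1`. Let
`W ∈ 𝒞` be big and dangerous (for `p`, `T`), and let `j` be the largest number `≤ 2 K d` with
`A (1 + δ) ^ j ≤ |W| 2 ^ d` (`Nat.findGreatest`; `j = 0` is possible). Then
`|W| 2 ^ d ≤ A (1 + δ) ^ (j + 1)`: for `j < 2 K d` by the maximality, for `j = 2 K d` as `|W| ≤ A` and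
`(1 + δ) ^ (2 K d) ≥ 2 ^ d` (`one_add_mul_le_pow`: `(1 + δ) ^ (2 K) ≥ 2`). `|N j| ≤ |W|`, so `N j ⊆ W` as
`𝒞` is a chain (if `W ⊆ N j` then they are equal), and
`|W \ N j| 2 ^ d = (|W| - |N j|) 2 ^ d ≤ A (1 + δ) ^ j δ ≤ δ |N j| 2 ^ d`. So
`|bias W p T| ≤ |bias (N j) p T| + δ |N j|` (`Finset.sum_sdiff`, each term has absolute value 1), and
`|N j| ≤ |W| < K |bias W p T| ≤ K |bias (N j) p T| + |N j| / 2`, so `|N j| < 2 K |bias (N j) p T|`.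
So the filter is covered by at most `2 K d + 1` filters as in the hypothesis `h`, and
`#filter * X ^ k ≤ (2 K d + 1) * |cls|`. `X ^ k ≥ (4 n³) ^ k (8 n) ^ k (2 d + 1) ^ k
≥ (4 n³) ^ k (2 K d + 1)`; divide by `2 K d + 1`. -/
def S_SMM : Prop := ∀ (I : Type) [Fintype I] [DecidableEq I] (t d X : ℕ)
  (Λ : I → Finset (Fin t)) (p₀ : Ptr I t) (𝒞 : Finset (Finset (Arr I t))) (T : Finset I),
  32 * Fintype.card I ^ 4 * (2 * d + 1) ≤ X →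
  (∀ (W : Finset (Arr I t)), Big d W →
    ((cls Λ p₀).filter fun p =>
      (W.card : ℝ) < 2 * (|bias W p T| * (8 * (Fintype.card I : ℝ)) ^ T.card)).card * X ^ T.card ≤
        (cls Λ p₀).card) →
  Nested 𝒞 → T.Nonempty →
  ((cls Λ p₀).filter fun p => ∃ W ∈ 𝒞, Big d W ∧ Dang W p T).card *
    (4 * Fintype.card I ^ 3) ^ T.card ≤ (cls Λ p₀).card

open Classical in
/-- CHM (uses `S_CHD`, `S_SWP`): a fixed chain of dangerous sets is rare, for all members of `𝒞`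
together.
Proof. The same as `Pool.Agent.DGO.t_CHP` (file Pool/Agent/DGO/CHP.lean, doc string of `S_CHP`), with
`A p` = there is `W ∈ 𝒞` with `Chain d W p Q' z ∧ Big d (sub W p Q' z)`, and `B p p'` = there is
`W ∈ 𝒞` with `Big d (sub W p Q' z) ∧ Dang (sub W p Q' z) p' T`. For each `p` the family
`𝒞.image fun W => sub W p Q' z` is a chain, so by `h` the number of the `p'` with `B p p'`
times `(4 n³) ^ |T|` is at most `|cls|`. -/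
def S_CHM : Prop := ∀ (I : Type) [Fintype I] [DecidableEq I] (t d : ℕ) (Λ : I → Finset (Fin t))
  (p₀ : Ptr I t),
  (∀ (𝒞 : Finset (Finset (Arr I t))) (T : Finset I), Nested 𝒞 → T.Nonempty →
    ((cls Λ p₀).filter fun p => ∃ W ∈ 𝒞, Big d W ∧ Dang W p T).card *
      (4 * Fintype.card I ^ 3) ^ T.card ≤ (cls Λ p₀).card) →
  ∀ (𝒞 : Finset (Finset (Arr I t))), Nested 𝒞 → ∀ (Q : Finset I) (z : I → Bool),
    ((cls Λ p₀).filter fun p => ∃ W ∈ 𝒞, Chain d W p Q z).card *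
      (2 * Fintype.card I ^ 2) ^ Q.card ≤ (cls Λ p₀).card

open Classical in
/-- GOM (uses `S_CHD`): few pointer assignments are not good for some member of `𝒞`.
Proof. The same as `Pool.Agent.DGO.t_GOO` (file Pool/Agent/DGO/GOO.lean, doc string of `S_GOO`), with
`∃ W ∈ 𝒞` before `Chain`. -/
def S_GOM : Prop := ∀ (I : Type) [Fintype I] [DecidableEq I] (t d r : ℕ) (Λ : I → Finset (Fin t))
  (p₀ : Ptr I t) (𝒞 : Finset (Finset (Arr I t))), 3 ≤ Fintype.card I →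
  (∀ (Q : Finset I) (z : I → Bool),
    ((cls Λ p₀).filter fun p => ∃ W ∈ 𝒞, Chain d W p Q z).card *
      (2 * Fintype.card I ^ 2) ^ Q.card ≤ (cls Λ p₀).card) →
  ((cls Λ p₀).filter fun p => ∃ W ∈ 𝒞, ¬ Good d r W p).card * Fintype.card I ^ r ≤
    (cls Λ p₀).card

open Classical in
/-- PSM: one pointer assignment is good for all lines.
Proof. For `v < L` the family `𝒞` of the sets `Wc d F v p = F v p \ Bad d F v` (all `p`) is nested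
(`Finset.sdiff_subset_sdiff`), so by the hypothesis `#{p | ¬ Good d r (Wc d F v p) p} * n ^ r ≤ |Ptr|`.
Sum over `v < L` (`Finset.card_biUnion_le`): `#{p | ∃ v < L, ¬ Good ..} * n ^ r ≤ L |Ptr| < n ^ r |Ptr|`
(`|Ptr| > 0`), so some `p` is not in this set. -/
def S_PSM : Prop := ∀ (I : Type) [Fintype I] [DecidableEq I] (t d r L : ℕ)
  (F : ℕ → Ptr I t → Finset (Arr I t)),
  (∀ 𝒞 : Finset (Finset (Arr I t)), Nested 𝒞 →
    ((univ : Finset (Ptr I t)).filter fun p => ∃ W ∈ 𝒞, ¬ Good d r W p).card *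
      Fintype.card I ^ r ≤ Fintype.card (Ptr I t)) →
  (∀ v < L, ∀ p p', F v p ⊆ F v p' ∨ F v p' ⊆ F v p) → L < Fintype.card I ^ r →
  ∃ p, ∀ v < L, Good d r (Wc d F v p) p

/-- WLM (uses `S_CHD`, `S_FR`, `S_BAD`, `S_EXT`): there is no state, for inferences from at most `κ`
lines and `κ` clauses.
Proof. As `Pool.Agent.DGO.t_WLK` (file Pool/Agent/DGO/WLK.lean, doc string of `S_WLK`). Strong induction
on `v`; let `(Q, z)` be a state at `v`, `|Q| ≤ r` by `Good`. (A) `Q' = Q ∪ E.biUnion (C.image Prod.fst)`,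
`|Q'| ≤ r + 3 κ`; HEX (see EXT, or the lemma in WLK.lean) gives `z'` with `H Q' z'`, `z' = z` on `Q`.
(B) By induction on subsets `S'` of `S` (`Finset.induction_on`) there are `g : ℕ → Finset I` and `y` with
`H (Q' ∪ S'.biUnion g) y`, `y = z'` on `Q'` and for `u ∈ S'`: `|g u| ≤ r`,
`Chain d (Wc d F u p) p (g u) y`, and if `sub (Wc d F u p) p (g u) y` is big then no nonempty `T`
disjoint from `g u` is dangerous for it. Step from `S'` to `insert u S'`: EXT for `Wc d F u p` and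
`Q₀ = Q' ∪ S'.biUnion g`, `z₀ = y`, `|Q₀| + r ≤ (|S'| + 2) r + 3 κ ≤ (κ + 1) r + 3 κ ≤ w` (as
`|S'| + 1 ≤ |S| ≤ κ`), gives `(Q₁, z₁)`; new `g u = Q₁`, new `y = z₁`; it agrees with the old one on
`Q₀`, so the claims for `u' ∈ S'` remain true (CHD). (C) FR for `sub (Wc d F v p) p Q z` with the values
`y` gives `V` in it with `V i (p i) = y i` for `i ∉ Q`, and for `i ∈ Q` `V i (p i) = z i = y i`. All
`C ∈ E` are satisfied by `y` (`Strat.good` for `Q' ∪ ..`, the variables of `C` are in `Q'`). So there is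
`u ∈ S` with `V ∈ F u p`; `V ∉ Bad d F v ⊇ Bad d F u`, so `V ∈ sub (Wc d F u p) p (g u) y`; BAD: it is
big. `H (g u) y` by `mono`. So `(g u, y)` is a state at `u < v`: contradiction. -/
def S_WLM : Prop := ∀ (I : Type) [Fintype I] [DecidableEq I] (t d r w L κ : ℕ) (G : CNF I)
  (H : Finset I → (I → Bool) → Prop) (F : ℕ → Ptr I t → Finset (Arr I t)) (p : Ptr I t),
  Strat G w H → (κ + 1) * r + 3 * κ ≤ w → (∀ C ∈ G, C.card ≤ 3) →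
  (∀ v < L, Good d r (Wc d F v p) p) →
  (∀ v < L, ∃ (E : CNF I) (S : Finset ℕ), E ⊆ G ∧ E.card ≤ κ ∧ S.card ≤ κ ∧ (∀ u ∈ S, u < v) ∧
    ∀ V ∈ F v p, (∃ u ∈ S, V ∈ F u p) ∨ ∃ C ∈ E, ¬ Sat (fun i => V i (p i)) C) →
  ∀ v < L, ∀ (Q : Finset I) (z : I → Bool), ¬ State d H (Wc d F v p) p Q z

/-- The lower bound for sequences of nested families (assembled by the architect). -/
def S_CORM : Prop := ∀ (I : Type) [Fintype I] [DecidableEq I] (a' d r w L κ lg : ℕ) (G : CNF I)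
  (H : Finset I → (I → Bool) → Prop) (F : ℕ → Ptr I (4 * a') → Finset (Arr I (4 * a'))),
  3 ≤ Fintype.card I → 2 ^ 14 * Fintype.card I ^ 6 * (2 * d + 1) ≤ 2 ^ a' →
  16 * Fintype.card I * (2 ^ 11 * Fintype.card I ^ 6 * (2 * d + 1)) ^ Fintype.card I * 4 ^ d ≤
    2 ^ ((2 ^ a') ^ 2 / 2) →
  d = Fintype.card I * (4 * a') + 3 * Fintype.card I + 1 + lg → L ≤ 2 ^ lg →
  2 ≤ κ → Strat G w H → (κ + 1) * r + 3 * κ ≤ w → (∀ C ∈ G, C.card ≤ 3) →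
  (∀ v < L, ∀ p p', F v p ⊆ F v p' ∨ F v p' ⊆ F v p) →
  (∀ v < L, ∃ (E : CNF I) (S : Finset ℕ), E ⊆ G ∧ E.card ≤ κ ∧ S.card ≤ κ ∧ (∀ u ∈ S, u < v) ∧
    ∀ p, ∀ V ∈ F v p, (∃ u ∈ S, V ∈ F u p) ∨ ∃ C ∈ E, ¬ Sat (fun i => V i (p i)) C) →
  (∃ v < L, ∀ p, F v p = univ) → Fintype.card I ^ r ≤ L

/-! ## Protocols -/

/-- OBY: a protocol for an oblivious branching program with inequalities.
Proof. The bits are those of `Pool.Agent.DAO.t_OBX` (file Pool/Agent/DAO/OBX.lean; its lemma `hagree`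
shows that the bits determine the state `run δ σ q₀ (em p q) T`; `run` of DAP and of DAO are the same
by `rfl` after induction, or repeat the proof). For a number `h` let `st h` be the last state
for some `(p, q)` whose bits are the digits of `h`, if there is one (otherwise any state). Let
`V₁` be the set of the variables with `∀ p q q', em p q v = em p q' v`; the others do not depend on `p`.
For fixed `p₁ : P`, `q₁ : Q` and `s = st h`: `u h p = b s - ∑ v ∈ V₁, if em p q₁ v then a s v else 0` and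
`w h q = ∑ v ∉ V₁, if em p₁ q v then a s v else 0`. If the bits of `(p, q)` are the digits of `h` then its
last state is `s`, and `f = false` iff `∑ v, (if em p q v then a s v else 0) < b s`. -/
def S_OBY : Prop := ∀ (V P Q : Type) [Fintype V] [Nonempty P] [Nonempty Q] (σ : ℕ → V)
  (T w J len : ℕ) (own : ℕ → Bool) (em : P → Q → V → Bool) (f : (V → Bool) → Bool), T ≤ J * len →
  (∀ t < T, own (t / len) = true → ∀ p q q', em p q (σ t) = em p q' (σ t)) →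
  (∀ t < T, own (t / len) = false → ∀ p p' q, em p q (σ t) = em p' q (σ t)) →
  (∀ v, (∀ p q q', em p q v = em p q' v) ∨ ∀ p p' q, em p q v = em p' q v) →
  Prog σ T w f → TP (J * Nat.clog 2 w) fun p q => f (em p q)

/-- RDH (uses `Pool.Agent.DAO.S_BIT`): the lines are replaced by nested families (proved by the
architect, as `Pool.Agent.DAO.t_RDG`). -/
def S_RDH : Prop := ∀ (I : Type) [Fintype I] [DecidableEq I] (t D L κ : ℕ) (G : CNF I)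
  (f : ℕ → Ptr I t → Arr I t → Bool), 2 ≤ κ →
  (∀ k < L, TP D (f k) ∧ ∃ (E : CNF I) (S : Finset ℕ), E ⊆ G ∧ E.card ≤ κ ∧ S.card ≤ κ ∧
    (∀ i ∈ S, i < k) ∧ ∀ p V, f k p V = false →
      (∃ i ∈ S, f i p V = false) ∨ ∃ C ∈ E, ¬ Sat (fun i => V i (p i)) C) →
  (∃ k < L, ∀ p V, f k p V = false) →
  ∃ F : ℕ → Ptr I t → Finset (Arr I t),
    (∀ v < (L + 1) * 2 ^ ((κ + 1) * D + 1), ∀ p p', F v p ⊆ F v p' ∨ F v p' ⊆ F v p) ∧
    (∀ v < (L + 1) * 2 ^ ((κ + 1) * D + 1), ∃ (E : CNF I) (S : Finset ℕ), E ⊆ G ∧ E.card ≤ κ ∧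
      S.card ≤ κ ∧ (∀ u ∈ S, u < v) ∧
      ∀ p, ∀ V ∈ F v p, (∃ u ∈ S, V ∈ F u p) ∨ ∃ C ∈ E, ¬ Sat (fun i => V i (p i)) C) ∧
    ∃ v < (L + 1) * 2 ^ ((κ + 1) * D + 1), ∀ p, F v p = univ

/-! ## Numbers -/

/-- NUE: the numbers, part 1. `n = (m + 1) (2 m + 1)`, `a` is `a'`, `t = 4 a`.
Proof. As `Pool.Agent.DAO.t_NUA` (file Pool/Agent/DAO/NUA.lean). `2 ^ 16 n ^ 8 ≤ 2 ^ a`
(`Nat.le_pow_clog`), `2 ^ a ≤ 2 ^ 17 n ^ 8` (`Nat.pow_pred_clog_lt_self`), `n ≥ 231` as `m ≥ 10`,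
`2 m² ≤ n ≤ 6 m²`. `2 ^ t ≤ 2 ^ 68 n ^ 32`, `2 ^ (3 t) ≤ 2 ^ 204 n ^ 96 ≤ 2 ^ 204 * 6 ^ 96 * m ^ 192
≤ 2 ^ 453 m ^ 192` and `2 ^ 454 ≤ 10 ^ 137 ≤ m ^ 137`. `n ≤ 2 ^ a`, `t ≤ 2 ^ a`, so
`9 n t (2 ^ t + 1) ≤ 2 ^ (3 t)` and `2 ^ (3 t) ≤ N ≤ 2 ^ (3 t + 1) ≤ m ^ 500`. The number of clauses is at
most `2 ^ (5 t) * 2 ^ (18 t) ≤ N ^ 8`; `3 t ≤ Nat.log 2 N`, so `6 (3 t + 1) ≤ 24 t ≤ 8 Nat.log 2 N`.
`2 a + 5 + 1 + a + t + 1 = 7 a + 7 ≤ 12 a = 3 t`. With `F = Nat.log 2 m`: `n < 2 ^ (2 F + 3)`, so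
`2 ^ 16 n ^ 8 ≤ 2 ^ (40 + 16 F)`, `a ≤ 40 + 16 F`; also `a ≤ 17 + 8 Nat.log 2 n + 8`, which is small
against `n`: `8 a + 9 ≤ 4 n` (e.g. from `a ≤ 40 + 16 F`, `F ≤ m`, and `n ≥ 2 m²`, or with small cases), so
`2 d + 1 = 8 a n + 6 n + 2 m + 3 ≤ 4 n²`. So `2 ^ 14 n ^ 6 (2 d + 1) ≤ 2 ^ 16 n ^ 8 ≤ 2 ^ a`. The last
condition: the base 2 logarithm of the left hand side is at most `4 + n + n (13 + 8 n) + 4 n² ≤ 30 n²`
(`n ≤ 2 ^ n`), and `(2 ^ a) ^ 2 / 2 ≥ 2 ^ 31 n ^ 16`. -/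
def S_NUE : Prop := ∀ m n a t N d : ℕ, 10 ≤ m → n = (m + 1) * (2 * m + 1) →
  a = Nat.clog 2 (2 ^ 16 * n ^ 8) → t = 4 * a → N = 2 ^ (3 * t) + 3 * (n * (2 ^ t + 1)) * (3 * t) →
  d = n * (4 * a) + 3 * n + 1 + m →
  m ≤ N ∧ N ≤ m ^ 500 ∧ 2 ^ (3 * t) ≤ N ∧ N ≤ 2 ^ (3 * t + 1) ∧
  (2 * n + n * 2 ^ t + 4 * (m + 1) ^ 3 * (2 ^ t + 1) ^ 3) * 2 ^ (6 * (3 * t)) ≤ N ^ 500 ∧
  6 * (3 * t + 1) ≤ 500 * Nat.log 2 N ∧ 1 ≤ a ∧ 8 * a ≤ 2 ^ (3 * t) ∧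
  2 ^ (2 * a + 5) * (2 * n * (2 ^ t + 1)) ≤ 2 ^ (3 * t) ∧
  2 ^ 14 * n ^ 6 * (2 * d + 1) ≤ 2 ^ a ∧
  16 * n * (2 ^ 11 * n ^ 6 * (2 * d + 1)) ^ n * 4 ^ d ≤ 2 ^ ((2 ^ a) ^ 2 / 2) ∧
  a ≤ 40 + 16 * Nat.log 2 m

/-- NUF: the numbers, part 2.
Proof. As `Pool.Agent.DAO.t_NUC` (file Pool/Agent/DAO/NUC.lean). Let `E = N ^ (1 / 8000) ≥ 1`, so
`E ≤ m ^ (1 / 16)`. `κ ≤ E + 2 ≤ 3 E`, `κ + 1 ≤ 4 E`, `L + 1 ≤ 2 ^ (E + 1)`, `clog 2 w ≤ E + 1 ≤ 2 E`. The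
base 2 logarithm `Y` of `(L + 1) * 2 ^ (..)` is at most `(E + 1) + 4 E (4 a² + 1) 2 E + 1
≤ 43 a² E²`. `r = m / (2 (κ + 1)) ≥ m / (8 E) - 1 ≥ m / (16 E)` for large `m`, and `n ^ r ≥ 2 ^ r`; so it
suffices that `43 a² E² < m / (16 E)`, `E³ ≤ m ^ (3 / 16)`, `a ≤ 40 + 16 Nat.log 2 m`: true for large `m`.
`(κ + 1) r ≤ m / 2`, `3 κ ≤ 9 E ≤ m / 2`. -/
def S_NUF : Prop := ∃ m₀ : ℕ, ∀ m ≥ m₀, ∀ n a N w L κ : ℕ, m ^ 2 ≤ n → 1 ≤ a →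
  a ≤ 40 + 16 * Nat.log 2 m → m ≤ N → N ≤ m ^ 500 →
  (κ : ℝ) ≤ (N : ℝ) ^ (1 / 8000 : ℝ) + 2 →
  ((max w L : ℕ) : ℝ) < (2 : ℝ) ^ ((N : ℝ) ^ (1 / 8000 : ℝ)) →
  (κ + 1) * (m / (2 * (κ + 1))) + 3 * κ ≤ m ∧
  (L + 1) * 2 ^ ((κ + 1) * ((4 * a ^ 2 + 1) * Nat.clog 2 w) + 1) ≤ 2 ^ m ∧
  (L + 1) * 2 ^ ((κ + 1) * ((4 * a ^ 2 + 1) * Nat.clog 2 w) + 1) < n ^ (m / (2 * (κ + 1)))

/-! ## The theorem -/

/-- The theorem (assembled by the architect). -/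
def S_MAIN : Prop := ∃ (c ε : ℝ) (K m₀ : ℕ), 0 < c ∧ 0 < ε ∧ ∀ m ≥ m₀, ∀ N : ℕ,
  N = Fintype.card (FV m) →
  m ≤ N ∧ N ≤ m ^ K ∧ Unsat (form m) ∧ (form m).card ≤ N ^ K ∧
  (∀ C ∈ form m, C.card ≤ K * Nat.log 2 N ∧ ¬ Taut C) ∧
  (∀ (σ : ℕ → FV m) (T w L κ : ℕ), (T : ℝ) ≤ ε * N * Real.logb 2 N → (κ : ℝ) ≤ (N : ℝ) ^ c →
    Ref (form m) κ (Prog σ T w) L → (2 : ℝ) ^ ((N : ℝ) ^ c) ≤ (max w L : ℕ)) ∧
  ∀ (l s L κ : ℕ) (ord : Fin l → (FV m ≃ Fin (Fintype.card (FV m)))),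
    (l : ℝ) ≤ ε * Real.logb 2 N → (κ : ℝ) ≤ (N : ℝ) ^ c →
    Ref (form m) κ (Mixed ord s) L → (2 : ℝ) ^ ((N : ℝ) ^ c) ≤ (max s L : ℕ)

end Pool.Agent.DAP
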